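import Mathlib

/-!
# The ring `ℤ[π]`, its coordinates and an archimedean norm on it
-/

set_option autoImplicit false

namespace Pool.Agent.V7H67.PA

open Finset

universe u

/-- `R` is `ℤ[π]`, free over `ℤ` with basis `1, π, …, π ^ (d - 1)`, and `π ^ d = ε N` with
`ε = ± 1`. -/
structure IsZpi {R : Type u} [CommRing R] (π : R) (d N : ℕ) (ε : ℤ) : Prop where
  two_le : 2 ≤ N
  one_le : 1 ≤ d
  sign : ε = 1 ∨ ε = -1
  pow_eq : π ^ d = ((ε * N : ℤ) : R)
  basis : ∀ x : R, ∃! u : Fin d → ℤ, x = ∑ i, (u i : R) * π ^ (i : ℕ)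

variable {R : Type u} [CommRing R] {π : R} {d N : ℕ} {ε : ℤ}

/-- the coordinates of an element -/
noncomputable def co (h : IsZpi π d N ε) (x : R) : Fin d → ℤ := (h.basis x).choose

lemma co_spec (h : IsZpi π d N ε) (x : R) : x = ∑ i, (co h x i : R) * π ^ (i : ℕ) :=
  (h.basis x).choose_spec.1

lemma co_eq (h : IsZpi π d N ε) {x : R} {u : Fin d → ℤ}
    (hx : x = ∑ i, (u i : R) * π ^ (i : ℕ)) : co h x = u :=
  ((h.basis x).choose_spec.2 u hx).symm

lemma co_add (h : IsZpi π d N ε) (x y : R) : co h (x + y) = co h x + co h y := by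
  apply co_eq
  conv_lhs => rw [co_spec h x, co_spec h y]
  rw [← Finset.sum_add_distrib]
  refine Finset.sum_congr rfl fun i _ => ?_
  simp only [Pi.add_apply, Int.cast_add]
  ring

lemma co_intCast_mul (h : IsZpi π d N ε) (c : ℤ) (x : R) :
    co h ((c : R) * x) = fun i => c * co h x i := by
  apply co_eq
  conv_lhs => rw [co_spec h x]
  rw [Finset.mul_sum]
  refine Finset.sum_congr rfl fun i _ => ?_
  push_cast
  ring

lemma co_neg (h : IsZpi π d N ε) (x : R) : co h (-x) = - co h x := by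
  have := co_intCast_mul h (-1) x
  simp only [Int.cast_neg, Int.cast_one, neg_mul, one_mul] at this
  rw [this]; rfl

lemma co_zero (h : IsZpi π d N ε) : co h (0 : R) = 0 := by
  apply co_eq
  simp

lemma co_eq_zero (h : IsZpi π d N ε) {x : R} (hx : co h x = 0) : x = 0 := by
  rw [co_spec h x, hx]
  simp

lemma co_injective (h : IsZpi π d N ε) : Function.Injective (co h : R → Fin d → ℤ) := by
  intro x y hxy
  rw [co_spec h x, co_spec h y, hxy]

lemma co_pow (h : IsZpi π d N ε) (i : Fin d) : co h (π ^ (i : ℕ)) = Pi.single i 1 := by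
  apply co_eq
  rw [Finset.sum_eq_single i]
  · simp
  · intro j _ hj
    rw [Pi.single_eq_of_ne hj]
    simp
  · intro hi
    exact absurd (Finset.mem_univ i) hi

/-- the archimedean absolute value of `π` -/
noncomputable def rho (d N : ℕ) : ℝ := (N : ℝ) ^ ((1 : ℝ) / d)

lemma rho_pow (h : IsZpi π d N ε) : rho d N ^ d = N := by
  have hd : (d : ℝ) ≠ 0 := by
    have := h.one_le
    positivity
  rw [rho, ← Real.rpow_natCast, ← Real.rpow_mul (by positivity), one_div,
    inv_mul_cancel₀ hd, Real.rpow_one]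

lemma one_lt_rho (h : IsZpi π d N ε) : 1 < rho d N := by
  have hd : (0 : ℝ) < d := by
    have := h.one_le
    positivity
  have hN : (1 : ℝ) < N := by
    have := h.two_le
    exact_mod_cast (by omega : 1 < N)
  exact Real.one_lt_rpow hN (by positivity)

lemma rho_pos (h : IsZpi π d N ε) : 0 < rho d N := lt_trans one_pos (one_lt_rho h)

lemma one_le_rho_pow (h : IsZpi π d N ε) (k : ℕ) : 1 ≤ rho d N ^ k :=
  one_le_pow₀ (one_lt_rho h).le

/-- the norm -/
noncomputable def ell (h : IsZpi π d N ε) (x : R) : ℝ :=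
  ∑ i, |(co h x i : ℝ)| * rho d N ^ (i : ℕ)

lemma ell_nonneg (h : IsZpi π d N ε) (x : R) : 0 ≤ ell h x :=
  Finset.sum_nonneg fun i _ => mul_nonneg (abs_nonneg _) (pow_nonneg (rho_pos h).le _)

lemma ell_zero (h : IsZpi π d N ε) : ell h (0 : R) = 0 := by
  simp [ell, co_zero]

lemma ell_add (h : IsZpi π d N ε) (x y : R) : ell h (x + y) ≤ ell h x + ell h y := by
  unfold ell
  rw [← Finset.sum_add_distrib]
  refine Finset.sum_le_sum fun i _ => ?_
  rw [co_add, ← add_mul]
  refine mul_le_mul_of_nonneg_right ?_ (pow_nonneg (rho_pos h).le _)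
  simp only [Pi.add_apply]
  push_cast
  exact abs_add_le _ _

lemma ell_intCast_mul (h : IsZpi π d N ε) (c : ℤ) (x : R) :
    ell h ((c : R) * x) = |(c : ℝ)| * ell h x := by
  unfold ell
  rw [Finset.mul_sum]
  refine Finset.sum_congr rfl fun i _ => ?_
  rw [co_intCast_mul]
  push_cast
  rw [abs_mul]
  ring

lemma ell_neg (h : IsZpi π d N ε) (x : R) : ell h (-x) = ell h x := by
  unfold ell
  simp [co_neg]

lemma ell_sub (h : IsZpi π d N ε) (x y : R) : ell h (x - y) ≤ ell h x + ell h y := by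
  rw [sub_eq_add_neg, ← ell_neg h y]
  exact ell_add h _ _

lemma ell_sum {α : Type*} (h : IsZpi π d N ε) (s : Finset α) (f : α → R) :
    ell h (∑ a ∈ s, f a) ≤ ∑ a ∈ s, ell h (f a) := by
  classical
  induction s using Finset.induction_on with
  | empty => simp [ell_zero]
  | insert a s ha ih =>
    rw [Finset.sum_insert ha, Finset.sum_insert ha]
    exact (ell_add h _ _).trans (by linarith)

lemma coord_le_ell (h : IsZpi π d N ε) (x : R) (i : Fin d) :
    |(co h x i : ℝ)| * rho d N ^ (i : ℕ) ≤ ell h x :=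
  Finset.single_le_sum (f := fun i : Fin d => |(co h x i : ℝ)| * rho d N ^ (i : ℕ))
    (fun i _ => mul_nonneg (abs_nonneg _) (pow_nonneg (rho_pos h).le _)) (Finset.mem_univ i)

lemma abs_coord_le_ell (h : IsZpi π d N ε) (x : R) (i : Fin d) :
    |(co h x i : ℝ)| ≤ ell h x := by
  refine le_trans ?_ (coord_le_ell h x i)
  exact le_mul_of_one_le_right (abs_nonneg _) (one_le_rho_pow h _)

lemma one_le_ell (h : IsZpi π d N ε) {x : R} (hx : x ≠ 0) : 1 ≤ ell h x := by
  have : ∃ i, co h x i ≠ 0 := by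
    by_contra hcon
    push Not at hcon
    exact hx (co_eq_zero h (funext hcon))
  obtain ⟨i, hi⟩ := this
  refine le_trans ?_ (abs_coord_le_ell h x i)
  have : (1 : ℤ) ≤ |co h x i| := Int.one_le_abs hi
  exact_mod_cast this

lemma ell_pow_lt (h : IsZpi π d N ε) (i : Fin d) : ell h (π ^ (i : ℕ)) = rho d N ^ (i : ℕ) := by
  unfold ell
  rw [co_pow, Finset.sum_eq_single i]
  · simp
  · intro j _ hj
    rw [Pi.single_eq_of_ne hj]
    simp
  · intro hi
    exact absurd (Finset.mem_univ i) hi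

lemma abs_eps (h : IsZpi π d N ε) : |(ε : ℝ)| = 1 := by
  rcases h.sign with h1 | h1 <;> simp [h1]

lemma pi_pow_eq (h : IsZpi π d N ε) (m : ℕ) :
    π ^ m = (((ε * N) ^ (m / d) : ℤ) : R) * π ^ (m % d) := by
  conv_lhs => rw [← Nat.div_add_mod m d, pow_add, pow_mul, h.pow_eq]
  push_cast
  ring

lemma ell_pow (h : IsZpi π d N ε) (m : ℕ) : ell h (π ^ m) = rho d N ^ m := by
  have hd : 0 < d := h.one_le
  rw [pi_pow_eq h m, ell_intCast_mul,
    ell_pow_lt h ⟨m % d, Nat.mod_lt _ hd⟩]
  push_cast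
  rw [abs_pow, abs_mul, abs_eps h, one_mul, Nat.abs_cast, ← rho_pow h, ← pow_mul, ← pow_add,
    Nat.div_add_mod]

lemma ell_mul (h : IsZpi π d N ε) (x y : R) : ell h (x * y) ≤ ell h x * ell h y := by
  have e1 : x * y = ∑ i, ∑ j, ((co h x i * co h y j : ℤ) : R) * π ^ ((i : ℕ) + (j : ℕ)) := by
    conv_lhs => rw [co_spec h x, co_spec h y]
    rw [Finset.sum_mul_sum]
    refine Finset.sum_congr rfl fun i _ => Finset.sum_congr rfl fun j _ => ?_
    push_cast
    ring
  rw [e1]
  refine (ell_sum h _ _).trans ?_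
  have e2 : ell h x * ell h y = ∑ i, ∑ j, |((co h x i * co h y j : ℤ) : ℝ)| *
      rho d N ^ ((i : ℕ) + (j : ℕ)) := by
    unfold ell
    rw [Finset.sum_mul_sum]
    refine Finset.sum_congr rfl fun i _ => Finset.sum_congr rfl fun j _ => ?_
    push_cast
    rw [abs_mul]
    ring
  rw [e2]
  refine Finset.sum_le_sum fun i _ => (ell_sum h _ _).trans (Finset.sum_le_sum fun j _ => ?_)
  rw [ell_intCast_mul, ell_pow]

lemma ell_pi_pow_mul (h : IsZpi π d N ε) (k : ℕ) (x : R) :
    ell h (π ^ k * x) = rho d N ^ k * ell h x := by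
  apply le_antisymm
  · have := ell_mul h (π ^ k) x
    rwa [ell_pow] at this
  · -- multiply with a further power of `π`
    have hd : 0 < d := h.one_le
    have hle : k ≤ d * k := Nat.le_mul_of_pos_left k hd
    have h1 : π ^ (d * k - k) * (π ^ k * x) = (((ε * N) ^ k : ℤ) : R) * x := by
      rw [← mul_assoc, ← pow_add, Nat.sub_add_cancel hle, pow_mul, h.pow_eq]
      push_cast
      ring
    have h2 := ell_mul h (π ^ (d * k - k)) (π ^ k * x)
    rw [h1, ell_intCast_mul, ell_pow] at h2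
    push_cast at h2
    rw [abs_pow, abs_mul, abs_eps h, one_mul, Nat.abs_cast, ← rho_pow h, ← pow_mul] at h2
    have h3 : rho d N ^ (d * k) = rho d N ^ (d * k - k) * rho d N ^ k := by
      rw [← pow_add, Nat.sub_add_cancel hle]
    rw [h3, mul_assoc] at h2
    exact le_of_mul_le_mul_left h2 (pow_pos (rho_pos h) _)

end Pool.Agent.V7H67.PA
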