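import Pool.Agent.V7H67.PA.Digits

/-!
# Counting: residues modulo `π ^ n`, small elements, small multiples
-/

set_option autoImplicit false

namespace Pool.Agent.V7H67.PA

open Finset

universe u

variable {R : Type u} [CommRing R] {π : R} {d N : ℕ} {ε : ℤ}

/-- the multiples of `π ^ n` -/
def PP (π : R) (n : ℕ) : AddSubgroup R := (AddMonoidHom.mulLeft (π ^ n)).range

lemma mem_PP (n : ℕ) (x : R) : x ∈ PP π n ↔ π ^ n ∣ x := by
  unfold PP
  rw [AddMonoidHom.mem_range]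
  constructor
  · rintro ⟨y, rfl⟩; exact Dvd.intro _ rfl
  · rintro ⟨y, rfl⟩; exact ⟨y, rfl⟩

lemma mk_eq_mk (n : ℕ) (x y : R) :
    ((x : R ⧸ PP π n) = (y : R ⧸ PP π n)) ↔ π ^ n ∣ x - y := by
  rw [QuotientAddGroup.eq, mem_PP, ← dvd_neg, show -(-x + y) = x - y by ring]

/-- sum of the powers of `ρ` -/
noncomputable def c2 (d N : ℕ) : ℝ := ∑ i : Fin d, rho d N ^ (i : ℕ)

lemma c2_nonneg (h : IsZpi π d N ε) : 0 ≤ c2 d N :=
  Finset.sum_nonneg fun _ _ => pow_nonneg (rho_pos h).le _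

lemma one_le_c2 (h : IsZpi π d N ε) : 1 ≤ c2 d N := by
  have h1 := Finset.single_le_sum (f := fun i : Fin d => rho d N ^ (i : ℕ))
    (fun _ _ => pow_nonneg (rho_pos h).le _) (Finset.mem_univ (⟨0, h.one_le⟩ : Fin d))
  simp only [pow_zero] at h1
  exact h1

lemma exists_ofCoord (h : IsZpi π d N ε) (u : Fin d → ℤ) : ∃ x : R, co h x = u :=
  ⟨_, co_eq h rfl⟩

lemma rounding (h : IsZpi π d N ε) {m : ℤ} (hm : m ≠ 0) (z : R) :
    ∃ q s : R, z = (m : R) * q + s ∧ ell h s ≤ |(m : ℝ)| * c2 d N := by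
  obtain ⟨q, hq⟩ := exists_ofCoord h (fun i => co h z i / m)
  obtain ⟨s, hs⟩ := exists_ofCoord h (fun i => co h z i % m)
  refine ⟨q, s, ?_, ?_⟩
  · apply co_injective h
    rw [co_add, co_intCast_mul, hq, hs]
    funext i
    simp only [Pi.add_apply]
    exact (Int.mul_ediv_add_emod _ _).symm
  · unfold ell c2
    rw [Finset.mul_sum]
    refine Finset.sum_le_sum fun i _ => ?_
    refine mul_le_mul_of_nonneg_right ?_ (pow_nonneg (rho_pos h).le _)
    rw [hs]
    have h1 : 0 ≤ co h z i % m := Int.emod_nonneg _ hm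
    have h2 : co h z i % m < |m| := Int.emod_lt_abs _ hm
    have h3 : |co h z i % m| ≤ |m| := by
      rw [abs_of_nonneg h1]; exact h2.le
    exact_mod_cast h3

lemma moduleFinite (h : IsZpi π d N ε) : Module.Finite ℤ R := by
  classical
  refine ⟨⟨univ.image (fun i : Fin d => π ^ (i : ℕ)), ?_⟩⟩
  rw [eq_top_iff]
  intro x _
  rw [co_spec h x]
  refine Submodule.sum_mem _ fun i _ => ?_
  rw [← zsmul_eq_mul]
  exact Submodule.smul_mem _ _ (Submodule.subset_span (by simp))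

lemma box_finite (h : IsZpi π d N ε) (X : ℝ) : {x : R | ell h x ≤ X}.Finite := by
  classical
  refine Set.Finite.of_finite_image (f := co h) ?_ (co_injective h).injOn
  refine Set.Finite.subset (Finset.finite_toSet
    (Fintype.piFinset (fun _ : Fin d => Finset.Icc (-(⌊X⌋₊ : ℤ)) (⌊X⌋₊ : ℤ)))) ?_
  rintro _ ⟨x, hx, rfl⟩
  rw [Finset.mem_coe, Fintype.mem_piFinset]
  intro i
  rw [Finset.mem_Icc, ← abs_le]
  have h1 : |(co h x i : ℝ)| ≤ X := (abs_coord_le_ell h x i).trans hx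
  have h2 : ((co h x i).natAbs : ℝ) ≤ X := by
    rw [Nat.cast_natAbs]; push_cast; exact h1
  have h3 : (co h x i).natAbs ≤ ⌊X⌋₊ := Nat.le_floor h2
  rw [Int.abs_eq_natAbs]
  exact_mod_cast h3

/-- the elements of norm at most `X` -/
noncomputable def boxF (h : IsZpi π d N ε) (X : ℝ) : Finset R := (box_finite h X).toFinset

lemma mem_boxF (h : IsZpi π d N ε) (X : ℝ) (x : R) : x ∈ boxF h X ↔ ell h x ≤ X := by
  simp [boxF]

lemma card_boxF (h : IsZpi π d N ε) {X : ℝ} (hX : 1 ≤ X) : ((boxF h X).card : ℝ) ≤ (3 * X) ^ d := by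
  classical
  have h1 : (boxF h X).card ≤
      (Fintype.piFinset (fun _ : Fin d => Finset.Icc (-(⌊X⌋₊ : ℤ)) (⌊X⌋₊ : ℤ))).card := by
    refine Finset.card_le_card_of_injOn (co h) ?_ (co_injective h).injOn
    intro x hx
    have hx := (mem_boxF h X x).1 hx
    rw [Finset.mem_coe, Fintype.mem_piFinset]
    intro i
    rw [Finset.mem_Icc, ← abs_le]
    have h1 : |(co h x i : ℝ)| ≤ X := (abs_coord_le_ell h x i).trans hx
    have h2 : ((co h x i).natAbs : ℝ) ≤ X := by
      rw [Nat.cast_natAbs]; push_cast; exact h1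
    have h3 : (co h x i).natAbs ≤ ⌊X⌋₊ := Nat.le_floor h2
    rw [Int.abs_eq_natAbs]
    exact_mod_cast h3
  rw [Fintype.card_piFinset, Finset.prod_const, Finset.card_univ, Fintype.card_fin] at h1
  have h2 : (Finset.Icc (-(⌊X⌋₊ : ℤ)) (⌊X⌋₊ : ℤ)).card = 2 * ⌊X⌋₊ + 1 := by
    rw [Int.card_Icc]; omega
  rw [h2] at h1
  have h3 : ((boxF h X).card : ℝ) ≤ (2 * (⌊X⌋₊ : ℝ) + 1) ^ d := by exact_mod_cast h1
  refine h3.trans (pow_le_pow_left₀ (by positivity) ?_ d)
  have := Nat.floor_le (zero_le_one.trans hX)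
  linarith

variable [IsDomain R]

lemma exists_mul_eq_int (h : IsZpi π d N ε) {x : R} (hx : x ≠ 0) :
    ∃ (y : R) (m : ℤ), m ≠ 0 ∧ x * y = (m : R) := by
  have := moduleFinite h
  have h1 : IsIntegral ℤ x := Algebra.IsIntegral.isIntegral x
  have h2 := Ideal.comap_ne_bot_of_integral_mem (R := ℤ) hx
    (Ideal.mem_span_singleton_self x) h1
  obtain ⟨m, hm, hm0⟩ := (Submodule.ne_bot_iff _).1 h2
  rw [Ideal.mem_comap, Ideal.mem_span_singleton] at hm
  obtain ⟨y, hy⟩ := hm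
  refine ⟨y, m, hm0, ?_⟩
  rw [← hy]
  simp

lemma small_rep (h : IsZpi π d N ε) {g : R} (hg : g ≠ 0) (r : R) :
    ∃ r' : R, ell h r' ≤ c2 d N * ell h g ∧ g ∣ r - r' := by
  obtain ⟨y, m, hm, hy⟩ := exists_mul_eq_int h hg
  obtain ⟨q, s, hq, hs⟩ := rounding h hm (r * y)
  refine ⟨r - q * g, ?_, ⟨q, by ring⟩⟩
  have e : (m : R) * (r - q * g) = s * g := by
    calc (m : R) * (r - q * g) = r * (g * y) - (m : R) * q * g := by rw [hy]; ring
      _ = (r * y) * g - (m : R) * q * g := by ring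
      _ = s * g := by rw [hq]; ring
  have h1 := ell_intCast_mul h m (r - q * g)
  rw [e] at h1
  have h2 := ell_mul h s g
  rw [h1] at h2
  have hm' : 0 < |(m : ℝ)| := abs_pos.2 (by exact_mod_cast hm)
  have h3 : ell h s * ell h g ≤ |(m : ℝ)| * (c2 d N * ell h g) := by
    rw [← mul_assoc]
    exact mul_le_mul_of_nonneg_right hs (ell_nonneg h g)
  exact le_of_mul_le_mul_left (h2.trans h3) hm'

lemma bij_val (h : IsZpi π d N ε) (n : ℕ) :
    Function.Bijective (fun a : Fin n → Fin N => ((val π a : R) : R ⧸ PP π n)) := by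
  constructor
  · intro a b hab
    exact val_inj h a b ((mk_eq_mk n _ _).1 hab)
  · intro q
    obtain ⟨x, rfl⟩ := QuotientAddGroup.mk_surjective q
    obtain ⟨a, ha⟩ := val_surj h n x
    exact ⟨a, ((mk_eq_mk n _ _).2 ha).symm⟩

lemma card_quot (h : IsZpi π d N ε) (n : ℕ) : Nat.card (R ⧸ PP π n) = N ^ n := by
  rw [← Nat.card_congr (Equiv.ofBijective _ (bij_val h n))]
  simp

lemma finite_quot (h : IsZpi π d N ε) (n : ℕ) : Finite (R ⧸ PP π n) :=
  Finite.of_surjective _ (bij_val h n).2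

/-- multiplication by `g` modulo `π ^ n` -/
def mulQ (π g : R) (n : ℕ) : R ⧸ PP π n →+ R ⧸ PP π n :=
  QuotientAddGroup.map (PP π n) (PP π n) (AddMonoidHom.mulLeft g) (by
    intro x hx
    rw [mem_PP] at hx
    rw [AddSubgroup.mem_comap, mem_PP]
    exact Dvd.dvd.mul_left hx _)

omit [IsDomain R] in
lemma mulQ_mk (g : R) (n : ℕ) (x : R) :
    mulQ π g n (x : R ⧸ PP π n) = ((g * x : R) : R ⧸ PP π n) := rfl

lemma card_fiber (h : IsZpi π d N ε) {g : R} (hg : g ≠ 0) {Y : ℝ} (hgY : ell h g ≤ Y)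
    (n : ℕ) :
    Nat.card {q : R ⧸ PP π n // ∃ f : R, ell h f ≤ Y ∧ ((f : R) : R ⧸ PP π n) = mulQ π g n q} ≤
      (boxF h ((1 + c2 d N) * Y)).card := by
  classical
  have := finite_quot h n
  have : Fintype (R ⧸ PP π n) := Fintype.ofFinite _
  set Q := R ⧸ PP π n with hQ
  set μ : Q →+ Q := mulQ π g n with hμ
  set S : Finset Q := univ.filter (fun q => ∃ f : R, ell h f ≤ Y ∧ ((f : R) : Q) = μ q) with hS
  have hcardS : Nat.card {q : Q // ∃ f : R, ell h f ≤ Y ∧ ((f : R) : Q) = μ q} = S.card := by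
    rw [Nat.card_eq_fintype_card, Fintype.card_subtype]
  rw [hcardS]
  -- kernel and cokernel
  have hker : Nat.card μ.ker = Nat.card (Q ⧸ μ.range) := by
    have e1 := AddSubgroup.card_eq_card_quotient_mul_card_addSubgroup μ.ker
    have e2 := AddSubgroup.card_eq_card_quotient_mul_card_addSubgroup μ.range
    have e3 : Nat.card (Q ⧸ μ.ker) = Nat.card μ.range :=
      Nat.card_congr (QuotientAddGroup.quotientKerEquivRange μ).toEquiv
    rw [e3] at e1
    have h0 : 0 < Nat.card μ.range := Nat.card_pos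
    have : Nat.card μ.range * Nat.card μ.ker = Nat.card μ.range * Nat.card (Q ⧸ μ.range) := by
      rw [← e1, e2, mul_comm]
    exact Nat.eq_of_mul_eq_mul_left h0 this
  have h1 : S.card ≤ Nat.card μ.ker * (S.image μ).card := by
    refine Finset.card_le_mul_card_image S _ fun b hb => ?_
    obtain ⟨a0, _, ha0⟩ := Finset.mem_image.1 hb
    have : Fintype μ.ker := Fintype.ofFinite _
    rw [Nat.card_eq_fintype_card, ← Finset.card_univ]
    refine Finset.card_le_card_of_injOn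
      (fun a => if ha : μ a = b then ⟨a - a0, by rw [AddMonoidHom.mem_ker, map_sub, ha, ha0, sub_self]⟩
        else 0) (fun a _ => Finset.mem_coe.2 (Finset.mem_univ _)) ?_
    intro a ha a' ha' haa
    have ha1 : μ a = b := (Finset.mem_filter.1 (Finset.mem_coe.1 ha)).2
    have ha2 : μ a' = b := (Finset.mem_filter.1 (Finset.mem_coe.1 ha')).2
    simp only [ha1, ha2, dif_pos] at haa
    have := congrArg Subtype.val haa
    simpa using this
  refine h1.trans ?_
  rw [hker]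
  -- choose small representatives
  have hrep : ∀ c : Q ⧸ μ.range, ∃ r : R, ell h r ≤ c2 d N * Y ∧
      (((r : R) : Q) : Q ⧸ μ.range) = c := by
    intro c
    obtain ⟨q, rfl⟩ := QuotientAddGroup.mk_surjective c
    obtain ⟨x, rfl⟩ := QuotientAddGroup.mk_surjective q
    obtain ⟨r, hr, hdvd⟩ := small_rep h hg x
    refine ⟨r, hr.trans (mul_le_mul_of_nonneg_left hgY (c2_nonneg h)), ?_⟩
    rw [QuotientAddGroup.eq, AddMonoidHom.mem_range]
    obtain ⟨z, hz⟩ := hdvd
    refine ⟨(z : Q), ?_⟩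
    rw [hμ, mulQ_mk, ← hz]
    rw [← QuotientAddGroup.mk_neg, ← QuotientAddGroup.mk_add]
    congr 1
    ring
  choose rr hrr1 hrr2 using hrep
  have hfb : ∀ b : {b // b ∈ S.image μ}, ∃ f : R, ell h f ≤ Y ∧ ((f : R) : Q) = b := by
    rintro ⟨b, hb⟩
    obtain ⟨a, ha, rfl⟩ := Finset.mem_image.1 hb
    exact (Finset.mem_filter.1 ha).2
  choose ff hff1 hff2 using hfb
  have hrange : ∀ b : {b // b ∈ S.image μ}, (b : Q) ∈ μ.range := by
    rintro ⟨b, hb⟩
    obtain ⟨a, _, rfl⟩ := Finset.mem_image.1 hb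
    exact ⟨a, rfl⟩
  have : Fintype (Q ⧸ μ.range) := Fintype.ofFinite _
  have h2 : Nat.card (Q ⧸ μ.range) * (S.image μ).card =
      (univ : Finset ((Q ⧸ μ.range) × {b // b ∈ S.image μ})).card := by
    rw [Finset.card_univ, Fintype.card_prod, Nat.card_eq_fintype_card, Fintype.card_coe]
  rw [h2]
  refine Finset.card_le_card_of_injOn (fun p => rr p.1 + ff p.2) ?_ ?_
  · intro p _
    rw [Finset.mem_coe, mem_boxF]
    refine (ell_add h _ _).trans ?_
    have := hrr1 p.1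
    have := hff1 p.2
    nlinarith
  · rintro ⟨c, b⟩ _ ⟨c', b'⟩ _ hcb
    simp only at hcb
    have key : ∀ (c : Q ⧸ μ.range) (b : {b // b ∈ S.image μ}),
        ((((rr c + ff b : R) : Q)) : Q ⧸ μ.range) = c := by
      intro c b
      conv_rhs => rw [← hrr2 c]
      rw [QuotientAddGroup.eq, QuotientAddGroup.mk_add, hff2]
      have e : -(((rr c : R) : Q) + (b : Q)) + ((rr c : R) : Q) = -(b : Q) := by abel
      rw [e]
      exact neg_mem (hrange b)
    have hc : c = c' := by rw [← key c b, ← key c' b', hcb]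
    subst hc
    have h3 : ff b = ff b' := add_left_cancel hcb
    have h4 : b = b' := by
      apply Subtype.ext
      rw [← hff2 b, ← hff2 b', h3]
    rw [h4]

/-- few residues have a small multiple by a given element -/
lemma countA (h : IsZpi π d N ε) {g : R} (hg : g ≠ 0) {Y : ℝ} (hY : 1 ≤ Y) (hgY : ell h g ≤ Y)
    (n : ℕ) :
    (Nat.card {a : Fin n → Fin N // ∃ f : R, ell h f ≤ Y ∧ π ^ n ∣ f - g * val π a} : ℝ) ≤
      (3 * ((1 + c2 d N) * Y)) ^ d := by
  have := finite_quot h n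
  have h1 : Nat.card {a : Fin n → Fin N // ∃ f : R, ell h f ≤ Y ∧ π ^ n ∣ f - g * val π a} ≤
      Nat.card {q : R ⧸ PP π n // ∃ f : R, ell h f ≤ Y ∧ ((f : R) : R ⧸ PP π n) =
        mulQ π g n q} := by
    refine Nat.card_le_card_of_injective
      (fun a => ⟨((val π a.1 : R) : R ⧸ PP π n), ?_⟩) ?_
    · obtain ⟨a, f, hf, hdvd⟩ := a
      exact ⟨f, hf, by rw [mulQ_mk]; exact (mk_eq_mk n _ _).2 hdvd⟩
    · intro a b hab
      exact Subtype.ext ((bij_val h n).1 (congrArg Subtype.val hab))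
  have h2 := h1.trans (card_fiber h hg hgY n)
  have h3 : (1 : ℝ) ≤ (1 + c2 d N) * Y := by
    have := c2_nonneg h
    nlinarith
  exact (by exact_mod_cast h2 : (_ : ℝ) ≤ ((boxF h ((1 + c2 d N) * Y)).card : ℝ)).trans
    (card_boxF h h3)

/-- the constant in the count of sequences with a small vector -/
noncomputable def KK (d N : ℕ) : ℝ := (9 * (1 + c2 d N)) ^ d

omit [IsDomain R] in
lemma KK_pos (h : IsZpi π d N ε) : 0 < KK d N := by
  have := c2_nonneg h
  unfold KK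
  positivity

/-- few sequences have a small vector in their lattice -/
theorem count_small (h : IsZpi π d N ε) {Y : ℝ} (hY : 1 ≤ Y) (n : ℕ) :
    (Nat.card {a : Fin n → Fin N // ∃ f g : R, g ≠ 0 ∧ ell h f ≤ Y ∧ ell h g ≤ Y ∧
      π ^ n ∣ f - g * val π a} : ℝ) ≤ KK d N * (Y ^ d * Y ^ d) := by
  classical
  have h1 : (univ.filter (fun a : Fin n → Fin N => ∃ f g : R, g ≠ 0 ∧ ell h f ≤ Y ∧
      ell h g ≤ Y ∧ π ^ n ∣ f - g * val π a)) ⊆
      ((boxF h Y).filter (fun g => g ≠ 0)).biUnion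
        (fun g => univ.filter (fun a : Fin n → Fin N => ∃ f : R, ell h f ≤ Y ∧
          π ^ n ∣ f - g * val π a)) := by
    intro a ha
    obtain ⟨f, g, hg, hf, hgY, hdvd⟩ := (Finset.mem_filter.1 ha).2
    rw [Finset.mem_biUnion]
    exact ⟨g, Finset.mem_filter.2 ⟨(mem_boxF h Y g).2 hgY, hg⟩,
      Finset.mem_filter.2 ⟨Finset.mem_univ _, f, hf, hdvd⟩⟩
  have h2 := (Finset.card_le_card h1).trans Finset.card_biUnion_le
  rw [Nat.card_eq_fintype_card, Fintype.card_subtype]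
  have h3 : ∀ g ∈ (boxF h Y).filter (fun g => g ≠ 0),
      ((univ.filter (fun a : Fin n → Fin N => ∃ f : R, ell h f ≤ Y ∧
          π ^ n ∣ f - g * val π a)).card : ℝ) ≤ (3 * ((1 + c2 d N) * Y)) ^ d := by
    intro g hg
    obtain ⟨hg1, hg2⟩ := Finset.mem_filter.1 hg
    have := countA h hg2 hY ((mem_boxF h Y g).1 hg1) n
    rwa [Nat.card_eq_fintype_card, Fintype.card_subtype] at this
  have h4 : (((univ.filter (fun a : Fin n → Fin N => ∃ f g : R, g ≠ 0 ∧ ell h f ≤ Y ∧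
      ell h g ≤ Y ∧ π ^ n ∣ f - g * val π a))).card : ℝ) ≤
      ∑ g ∈ (boxF h Y).filter (fun g => g ≠ 0), (3 * ((1 + c2 d N) * Y)) ^ d := by
    refine le_trans ?_ (Finset.sum_le_sum h3)
    exact_mod_cast h2
  refine h4.trans ?_
  rw [Finset.sum_const, nsmul_eq_mul]
  have h5 : (((boxF h Y).filter (fun g => g ≠ 0)).card : ℝ) ≤ (3 * Y) ^ d := by
    refine le_trans ?_ (card_boxF h hY)
    exact_mod_cast Finset.card_filter_le _ _
  have h6 : (0 : ℝ) ≤ (3 * ((1 + c2 d N) * Y)) ^ d := by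
    have := c2_nonneg h
    positivity
  refine (mul_le_mul_of_nonneg_right h5 h6).trans (le_of_eq ?_)
  unfold KK
  rw [← mul_pow, ← mul_pow, ← mul_pow]
  congr 1
  ring

end Pool.Agent.V7H67.PA
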