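import Mathlib

/-!
# `π`-adic complexity of finite sequences: definitions

`R` is a commutative ring, `π` an element of `R`, digits are the elements `0, 1, …, N - 1`.
-/

set_option autoImplicit false

namespace Pool.Agent.V7H67.PA

open Finset

universe u

variable {R : Type u} [CommRing R]

/-- `g` is invertible modulo `π`. -/
def UnitMod (π g : R) : Prop := ∃ g' : R, π ∣ g * g' - 1

/-- The infinite sequence `b` of digits is the sequence of coefficients of the `π`-adic number
`f / g`: for every `n`, `f ≡ g (b_0 + b_1 π + … + b_{n-1} π^{n-1})` modulo `π ^ n`. -/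
def Represents (π : R) {N : ℕ} (b : ℕ → Fin N) (f g : R) : Prop :=
  ∀ n : ℕ, π ^ n ∣ f - g * ∑ i ∈ range n, ((b i : ℕ) : R) * π ^ i

/-- The sizes `max (φ f) (φ g)` of the AFSRs which output the infinite sequence `b`: `g` is the
connection element, invertible modulo `π`, and `f / g` is the `π`-adic number of the output. -/
def afsrSizes (π : R) (φ : R → ℝ) {N : ℕ} (b : ℕ → Fin N) : Set ℝ :=
  {t | ∃ f g : R, UnitMod π g ∧ Represents π b f g ∧ t = max (φ f) (φ g)}

/-- The sizes of the AFSRs of which the first `n` outputs are `a_0, …, a_{n-1}`. -/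
def finSizes (π : R) (φ : R → ℝ) {N n : ℕ} (a : Fin n → Fin N) : Set ℝ :=
  {t | ∃ b : ℕ → Fin N, (∀ i : Fin n, b i = a i) ∧ t ∈ afsrSizes π φ b}

/-- The `π`-adic complexity of a finite sequence: the least size of an AFSR of which the first
`n` outputs are `a_0, …, a_{n-1}`. -/
noncomputable def finComplexity (π : R) (φ : R → ℝ) {N n : ℕ} (a : Fin n → Fin N) : ℝ :=
  sInf (finSizes π φ a)

/-- The average `E_n^fin` of the `π`-adic complexity over the `N ^ n` sequences of length `n`. -/
noncomputable def avgFin (π : R) (φ : R → ℝ) (N n : ℕ) : ℝ :=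
  (∑ a : Fin n → Fin N, finComplexity π φ a) / (N : ℝ) ^ n

end Pool.Agent.V7H67.PA
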