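import Pool.Agent.V7H67.PA.Basic

/-!
# Digit expansions modulo powers of `π`
-/

set_option autoImplicit false

namespace Pool.Agent.V7H67.PA

open Finset

universe u

variable {R : Type u} [CommRing R] {π : R} {d N : ℕ} {ε : ℤ}

lemma eps_sq (h : IsZpi π d N ε) : ε * ε = 1 := by
  rcases h.sign with h1 | h1 <;> simp [h1]

/-- `N` is a multiple of `π` -/
lemma pi_dvd_N (h : IsZpi π d N ε) : π ∣ (N : R) := by
  have h1 : (N : R) = (ε : R) * π ^ d := by
    rw [h.pow_eq]
    push_cast
    rw [← mul_assoc]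
    have : (ε : R) * (ε : R) = 1 := by
      have := eps_sq h
      exact_mod_cast congrArg (fun z : ℤ => (z : R)) this
    rw [this, one_mul]
  rw [h1]
  exact Dvd.dvd.mul_left (dvd_pow_self π (by have := h.one_le; omega)) _

lemma N_dvd_of_pi_dvd (h : IsZpi π d N ε) {c : ℤ} (hc : π ∣ (c : R)) : (N : ℤ) ∣ c := by
  obtain ⟨y, hy⟩ := hc
  have hd : 0 < d := h.one_le
  -- `c π^(d-1) = ε N y`
  have h1 : (c : R) * π ^ (d - 1) = ((ε * N : ℤ) : R) * y := by
    rw [hy, ← h.pow_eq]
    have : π ^ d = π ^ (d - 1) * π := by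
      rw [← pow_succ, Nat.sub_add_cancel h.one_le]
    rw [this]; ring
  have h2 := congrArg (fun z => co h z ⟨d - 1, by omega⟩) h1
  simp only [co_intCast_mul] at h2
  have h3 := co_pow h ⟨d - 1, by omega⟩
  simp only at h3
  rw [h3] at h2
  simp only [Pi.single_eq_same, mul_one] at h2
  rw [h2, mul_assoc]
  exact Dvd.dvd.mul_left (Dvd.intro _ rfl) _

/-- an element is congruent to its coordinate `0` -/
lemma pi_dvd_sub_co (h : IsZpi π d N ε) (x : R) :
    π ∣ x - ((co h x ⟨0, h.one_le⟩ : ℤ) : R) := by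
  have h1 : x - ((co h x ⟨0, h.one_le⟩ : ℤ) : R) =
      ∑ i ∈ univ.erase (⟨0, h.one_le⟩ : Fin d), (co h x i : R) * π ^ (i : ℕ) := by
    have e := co_spec h x
    rw [← Finset.add_sum_erase univ _ (Finset.mem_univ (⟨0, h.one_le⟩ : Fin d))] at e
    simp only [pow_zero, mul_one] at e
    exact sub_eq_of_eq_add' e
  rw [h1]
  refine Finset.dvd_sum fun i hi => Dvd.dvd.mul_left (dvd_pow_self π ?_) _
  intro h0
  exact (Finset.mem_erase.1 hi).1 (Fin.ext h0)

lemma exists_digit (h : IsZpi π d N ε) (x : R) : ∃ s : Fin N, π ∣ x - ((s : ℕ) : R) := by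
  have hN : 0 < N := by have := h.two_le; omega
  set c := co h x ⟨0, h.one_le⟩ with hc
  have hN' : (N : ℤ) ≠ 0 := by exact_mod_cast hN.ne'
  have h0 : 0 ≤ c % (N : ℤ) := Int.emod_nonneg _ hN'
  have h1 : c % (N : ℤ) < N := Int.emod_lt_of_pos _ (by exact_mod_cast hN)
  refine ⟨⟨(c % (N : ℤ)).toNat, by omega⟩, ?_⟩
  have e1 : (((c % (N : ℤ)).toNat : ℕ) : R) = ((c % (N : ℤ) : ℤ) : R) := by
    conv_rhs => rw [← Int.toNat_of_nonneg h0, Int.cast_natCast]
  simp only
  rw [e1]
  have e2 : x - ((c % (N : ℤ) : ℤ) : R) = (x - (c : R)) + ((N : R) * ((c / (N : ℤ) : ℤ) : R)) := by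
    have := Int.emod_add_mul_ediv c (N : ℤ)
    have e3 : (c : R) = ((c % (N : ℤ) : ℤ) : R) + (N : R) * ((c / (N : ℤ) : ℤ) : R) := by
      conv_lhs => rw [← this]
      push_cast
      ring
    rw [e3]; ring
  rw [e2]
  exact dvd_add (pi_dvd_sub_co h x) (Dvd.dvd.mul_right (pi_dvd_N h) _)

lemma digit_unique (h : IsZpi π d N ε) {s t : Fin N} (hst : π ∣ ((s : ℕ) : R) - ((t : ℕ) : R)) :
    s = t := by
  have h1 : π ∣ (((s : ℕ) : ℤ) - ((t : ℕ) : ℤ) : ℤ) := by
    push_cast
    exact hst
  have h2 := N_dvd_of_pi_dvd h h1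
  have hs := s.2
  have ht := t.2
  apply Fin.ext
  obtain ⟨k, hk⟩ := h2
  have hk0 : k = 0 := by
    by_contra hne
    rcases lt_or_gt_of_ne hne with h3 | h3
    · have : (N : ℤ) * k ≤ (N : ℤ) * (-1) := by
        apply mul_le_mul_of_nonneg_left _ (by positivity)
        omega
      omega
    · have : (N : ℤ) * 1 ≤ (N : ℤ) * k := by
        apply mul_le_mul_of_nonneg_left _ (by positivity)
        omega
      omega
  rw [hk0] at hk
  omega

/-- the value of the first `n` digits of a sequence -/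
def valN (π : R) (b : ℕ → Fin N) (n : ℕ) : R := ∑ i ∈ range n, ((b i : ℕ) : R) * π ^ i

/-- the value of a finite sequence of digits -/
def val (π : R) {n : ℕ} (a : Fin n → Fin N) : R := ∑ i, ((a i : ℕ) : R) * π ^ (i : ℕ)

lemma valN_eq_val (π : R) (b : ℕ → Fin N) (n : ℕ) :
    valN π b n = val π (fun i : Fin n => b i) := by
  unfold valN val
  rw [Finset.sum_range]

lemma val_succ (π : R) {n : ℕ} (a : Fin (n + 1) → Fin N) :
    val π a = ((a 0 : ℕ) : R) + π * val π (fun i : Fin n => a i.succ) := by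
  unfold val
  rw [Fin.sum_univ_succ, Finset.mul_sum]
  congr 1
  · simp
  · refine Finset.sum_congr rfl fun i _ => ?_
    simp only [Fin.val_succ]
    rw [pow_succ]; ring

lemma pi_ne_zero (h : IsZpi π d N ε) : π ≠ 0 := by
  intro h0
  have h1 := pi_dvd_N h
  rw [h0, zero_dvd_iff] at h1
  have h2 : ell h ((N : ℤ) : R) = N := by
    have := ell_intCast_mul h (N : ℤ) (1 : R)
    rw [mul_one] at this
    rw [this]
    have h3 := ell_pow h 0
    rw [pow_zero] at h3
    rw [h3]
    simp
  rw [Int.cast_natCast, h1, ell_zero] at h2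
  have := h.two_le
  have : (N : ℝ) = 0 := h2.symm
  have : N = 0 := by exact_mod_cast this
  omega

variable [IsDomain R]

lemma val_inj (h : IsZpi π d N ε) : ∀ {n : ℕ} (a b : Fin n → Fin N),
    π ^ n ∣ val π a - val π b → a = b := by
  intro n
  induction n with
  | zero =>
    intro a b _
    funext i
    exact i.elim0
  | succ n ih =>
    intro a b hab
    rw [val_succ, val_succ] at hab
    have h0 : a 0 = b 0 := by
      apply digit_unique h
      have h1 : π ∣ (((a 0 : ℕ) : R) + π * val π (fun i : Fin n => a i.succ)) -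
          (((b 0 : ℕ) : R) + π * val π (fun i : Fin n => b i.succ)) :=
        (dvd_pow_self π (Nat.succ_ne_zero n)).trans hab
      have h2 : ((a 0 : ℕ) : R) - ((b 0 : ℕ) : R) =
          ((((a 0 : ℕ) : R) + π * val π (fun i : Fin n => a i.succ)) -
          (((b 0 : ℕ) : R) + π * val π (fun i : Fin n => b i.succ))) -
          π * (val π (fun i : Fin n => a i.succ) - val π (fun i : Fin n => b i.succ)) := by ring
      rw [h2]
      exact dvd_sub h1 (Dvd.intro _ rfl)
    rw [h0] at hab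
    have h3 : π * π ^ n ∣ π * (val π (fun i : Fin n => a i.succ) -
        val π (fun i : Fin n => b i.succ)) := by
      have : (((b 0 : ℕ) : R) + π * val π (fun i : Fin n => a i.succ)) -
          (((b 0 : ℕ) : R) + π * val π (fun i : Fin n => b i.succ)) =
          π * (val π (fun i : Fin n => a i.succ) - val π (fun i : Fin n => b i.succ)) := by ring
      rw [this, pow_succ'] at hab
      exact hab
    have h4 := (mul_dvd_mul_iff_left (pi_ne_zero h)).1 h3
    have h5 := ih _ _ h4
    funext i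
    refine Fin.cases h0 (fun j => ?_) i
    exact congrFun h5 j

omit [IsDomain R] in
lemma val_surj (h : IsZpi π d N ε) (n : ℕ) : ∀ x : R, ∃ a : Fin n → Fin N,
    π ^ n ∣ x - val π a := by
  induction n with
  | zero =>
    intro x
    exact ⟨fun i => i.elim0, by simp⟩
  | succ n ih =>
    intro x
    obtain ⟨s, y, hy⟩ := exists_digit h x
    obtain ⟨a, z, hz⟩ := ih y
    refine ⟨Fin.cons s a, ?_⟩
    rw [val_succ]
    simp only [Fin.cons_zero, Fin.cons_succ]
    refine ⟨z, ?_⟩
    have : x - (((s : ℕ) : R) + π * val π (fun i => a i)) =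
        (x - ((s : ℕ) : R)) - π * val π (fun i => a i) := by ring
    rw [this, hy, ← mul_sub, hz]
    ring

omit [IsDomain R] in
lemma ell_val (h : IsZpi π d N ε) {n : ℕ} (a : Fin n → Fin N) :
    ell h (val π a) ≤ (N / (rho d N - 1)) * rho d N ^ n := by
  have hr : 0 < rho d N - 1 := sub_pos.2 (one_lt_rho h)
  unfold val
  refine (ell_sum h _ _).trans ?_
  have h1 : ∀ i : Fin n, ell h (((a i : ℕ) : R) * π ^ (i : ℕ)) ≤ N * rho d N ^ (i : ℕ) := by
    intro i
    have := ell_intCast_mul h ((a i : ℕ) : ℤ) (π ^ (i : ℕ))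
    rw [Int.cast_natCast] at this
    rw [this, ell_pow]
    refine mul_le_mul_of_nonneg_right ?_ (pow_nonneg (rho_pos h).le _)
    rw [Int.cast_natCast, Nat.abs_cast]
    exact_mod_cast (a i).2.le
  refine (Finset.sum_le_sum fun i _ => h1 i).trans ?_
  rw [← Finset.mul_sum, Fin.sum_univ_eq_sum_range (fun i => rho d N ^ i) n,
    geom_sum_eq (one_lt_rho h).ne', div_mul_eq_mul_div, ← mul_div_assoc]
  refine div_le_div_of_nonneg_right ?_ hr.le
  refine mul_le_mul_of_nonneg_left ?_ (by positivity)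
  linarith

end Pool.Agent.V7H67.PA
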