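import Pool.Agent.V7H67.PA.Main

/-!
# The two size functions of the problem
-/

set_option autoImplicit false

namespace Pool.Agent.V7H67.PA

open Finset

universe u

variable {R : Type u} [CommRing R] [IsDomain R]

/-- case (i): `π ^ 2 = -N`, size `log_N (u ^ 2 + N v ^ 2)` -/
theorem case_one (π : R) (N : ℕ) (φ : R → ℝ) (hN : 2 ≤ N) (hπ : π ^ 2 = -(N : R))
    (hbasis : ∀ x : R, ∃! p : ℤ × ℤ, x = (p.1 : R) + (p.2 : R) * π)
    (hφ : ∀ u v : ℤ, φ ((u : R) + (v : R) * π) = Real.logb N ((u : ℝ) ^ 2 + N * (v : ℝ) ^ 2)) :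
    ∃ C : ℝ, ∀ n : ℕ, |avgFin π φ N n - (n : ℝ) / 2| ≤ C := by
  have h : IsZpi π 2 N (-1) := by
    refine ⟨hN, by norm_num, Or.inr rfl, ?_, ?_⟩
    · rw [hπ]; push_cast; ring
    · intro x
      obtain ⟨p, hp, hu⟩ := hbasis x
      refine ⟨![p.1, p.2], ?_, ?_⟩
      · simp only
        rw [Fin.sum_univ_two]
        simpa using hp
      · intro w hw
        rw [Fin.sum_univ_two] at hw
        have := hu (w 0, w 1) (by simpa using hw)
        funext i
        fin_cases i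
        · simp [← this]
        · simp [← this]
  have hN1 : (1 : ℝ) < N := by exact_mod_cast (by omega : 1 < N)
  have hNpos : (0 : ℝ) < N := by linarith
  have hr := rho_pos h
  have hr2 : rho 2 N ^ 2 = N := rho_pow h
  have hell : ∀ x : R, ell h x = |((co h x 0 : ℤ) : ℝ)| + |((co h x 1 : ℤ) : ℝ)| * rho 2 N := by
    intro x
    unfold ell
    rw [Fin.sum_univ_two]
    simp
  have hphi : ∀ x : R, φ x = Real.logb N (((co h x 0 : ℤ) : ℝ) ^ 2 +
      N * ((co h x 1 : ℤ) : ℝ) ^ 2) := by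
    intro x
    have h1 := co_spec h x
    rw [Fin.sum_univ_two] at h1
    have h2 := hφ (co h x 0) (co h x 1)
    rw [← h2]
    congr 1
    simpa using h1
  have hlog2 : ∀ x : R, ((2 : ℕ) : ℝ) * Real.logb N (ell h x) = Real.logb N (ell h x ^ 2) := by
    intro x
    rw [Real.logb_pow]
  have hsq : ∀ x : R, ell h x ^ 2 = ((co h x 0 : ℤ) : ℝ) ^ 2 + N * ((co h x 1 : ℤ) : ℝ) ^ 2 +
      2 * (|((co h x 0 : ℤ) : ℝ)| * (|((co h x 1 : ℤ) : ℝ)| * rho 2 N)) := by
    intro x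
    rw [hell x]
    have e1 := sq_abs ((co h x 0 : ℤ) : ℝ)
    have e2 := sq_abs ((co h x 1 : ℤ) : ℝ)
    rw [← e1, ← e2, ← hr2]; ring
  have hprod : ∀ x : R, 2 * (|((co h x 0 : ℤ) : ℝ)| * (|((co h x 1 : ℤ) : ℝ)| * rho 2 N)) ≤
      ((co h x 0 : ℤ) : ℝ) ^ 2 + N * ((co h x 1 : ℤ) : ℝ) ^ 2 := by
    intro x
    have e1 := sq_abs ((co h x 0 : ℤ) : ℝ)
    have e2 := sq_abs ((co h x 1 : ℤ) : ℝ)
    rw [← e1, ← e2, ← hr2]
    nlinarith [sq_nonneg (|((co h x 0 : ℤ) : ℝ)| - |((co h x 1 : ℤ) : ℝ)| * rho 2 N)]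
  have hpos : ∀ x : R, x ≠ 0 → 0 < ((co h x 0 : ℤ) : ℝ) ^ 2 + N * ((co h x 1 : ℤ) : ℝ) ^ 2 := by
    intro x hx
    have h1 := one_le_ell h hx
    have h2 := hsq x
    have h3 := hprod x
    nlinarith
  refine avg_main h φ (Real.logb N 2) (Real.logb_nonneg hN1 (by norm_num)) ?_ ?_ ?_
  · intro x hx
    rw [hlog2, hphi x]
    refine Real.logb_le_logb_of_le hN1 (hpos x hx) ?_
    rw [hsq x]
    have : 0 ≤ 2 * (|((co h x 0 : ℤ) : ℝ)| * (|((co h x 1 : ℤ) : ℝ)| * rho 2 N)) := by positivity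
    linarith
  · intro x hx
    rw [hlog2, hphi x, ← Real.logb_mul (hpos x hx).ne' (by norm_num)]
    have h1 := one_le_ell h hx
    refine Real.logb_le_logb_of_le hN1 (by positivity) ?_
    rw [hsq x]
    have := hprod x
    linarith
  · have := hφ 0 0
    simpa using this

/-- case (ii): `π ^ d = N`, size `max (d log_N |u_i| + i)` -/
theorem case_two (π : R) (d N : ℕ) (φ : R → ℝ) (hd : 1 ≤ d) (hN : 2 ≤ N) (hπ : π ^ d = (N : R))
    (hbasis : ∀ x : R, ∃! u : Fin d → ℤ, x = ∑ i, (u i : R) * π ^ (i : ℕ))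
    (hφ : ∀ u : Fin d → ℤ, φ (∑ i, (u i : R) * π ^ (i : ℕ)) =
      sSup {t : ℝ | ∃ i : Fin d, u i ≠ 0 ∧ t = d * Real.logb N |(u i : ℝ)| + (i : ℕ)}) :
    ∃ C : ℝ, ∀ n : ℕ, |avgFin π φ N n - (n : ℝ) / 2| ≤ C := by
  have h : IsZpi π d N 1 := ⟨hN, hd, Or.inl rfl, by rw [hπ]; push_cast; ring, hbasis⟩
  have hN1 : (1 : ℝ) < N := by exact_mod_cast (by omega : 1 < N)
  have hd1 : (1 : ℝ) ≤ d := by exact_mod_cast hd
  have hr := rho_pos h
  have hphi : ∀ x : R, φ x = sSup {t : ℝ | ∃ i : Fin d, co h x i ≠ 0 ∧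
      t = d * Real.logb N |(co h x i : ℝ)| + (i : ℕ)} := by
    intro x
    rw [← hφ, ← co_spec h x]
  have hterm : ∀ (x : R) (i : Fin d), co h x i ≠ 0 →
      d * Real.logb N |(co h x i : ℝ)| + (i : ℕ) =
        d * Real.logb N (|(co h x i : ℝ)| * rho d N ^ (i : ℕ)) := by
    intro x i hi
    rw [Real.logb_mul (abs_pos.2 (by exact_mod_cast hi)).ne' (pow_pos hr _).ne', mul_add,
      logb_rho h]
  have hub : ∀ x : R, ∀ t ∈ {t : ℝ | ∃ i : Fin d, co h x i ≠ 0 ∧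
      t = d * Real.logb N |(co h x i : ℝ)| + (i : ℕ)}, t ≤ d * Real.logb N (ell h x) := by
    rintro x t ⟨i, hi, rfl⟩
    rw [hterm x i hi]
    refine mul_le_mul_of_nonneg_left ?_ (by linarith)
    have h1 : 0 < |(co h x i : ℝ)| := abs_pos.2 (by exact_mod_cast hi)
    exact Real.logb_le_logb_of_le hN1 (by positivity) (coord_le_ell h x i)
  refine avg_main h φ (d * Real.logb N d)
    (mul_nonneg (by linarith) (Real.logb_nonneg hN1 hd1)) ?_ ?_ ?_
  · intro x hx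
    rw [hphi x]
    have : ∃ i, co h x i ≠ 0 := by
      by_contra hcon
      push Not at hcon
      exact hx (co_eq_zero h (funext hcon))
    obtain ⟨i, hi⟩ := this
    exact csSup_le ⟨_, i, hi, rfl⟩ (hub x)
  · intro x hx
    -- a coordinate of size at least `ell x / d`
    have hex : ∃ i : Fin d, ell h x ≤ d * (|(co h x i : ℝ)| * rho d N ^ (i : ℕ)) := by
      by_contra hcon
      push Not at hcon
      have h1 : ∑ i : Fin d, d * (|(co h x i : ℝ)| * rho d N ^ (i : ℕ)) <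
          ∑ _i : Fin d, ell h x := by
        refine Finset.sum_lt_sum_of_nonempty ⟨⟨0, hd⟩, Finset.mem_univ _⟩ fun i _ => hcon i
      rw [← Finset.mul_sum, Finset.sum_const, Finset.card_univ, Fintype.card_fin,
        nsmul_eq_mul] at h1
      exact lt_irrefl _ h1
    obtain ⟨i, hi⟩ := hex
    have h1 := one_le_ell h hx
    have hi0 : co h x i ≠ 0 := by
      intro h0
      rw [h0] at hi
      simp only [Int.cast_zero, abs_zero, zero_mul, mul_zero] at hi
      linarith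
    have hposi : 0 < |(co h x i : ℝ)| := abs_pos.2 (by exact_mod_cast hi0)
    have h2 : d * Real.logb N |(co h x i : ℝ)| + (i : ℕ) ≤ φ x := by
      rw [hphi x]
      exact le_csSup ⟨_, hub x⟩ ⟨i, hi0, rfl⟩
    have h3 : Real.logb N (ell h x) ≤
        Real.logb N (d * (|(co h x i : ℝ)| * rho d N ^ (i : ℕ))) :=
      Real.logb_le_logb_of_le hN1 (by linarith) hi
    rw [Real.logb_mul (by linarith) (by positivity)] at h3
    have h4 := mul_le_mul_of_nonneg_left h3 (by linarith : (0 : ℝ) ≤ d)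
    rw [mul_add, ← hterm x i hi0] at h4
    linarith
  · have := hφ 0
    simpa using this

end Pool.Agent.V7H67.PA
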