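import Pool.Agent.V7H67.PA.Count

/-!
# Two independent small vectors, and a small vector with invertible denominator
-/

set_option autoImplicit false

namespace Pool.Agent.V7H67.PA

open Finset

universe u

variable {R : Type u} [CommRing R] {π : R} {d N : ℕ} {ε : ℤ} [IsDomain R]

lemma index_PP (h : IsZpi π d N ε) (k : ℕ) : (PP π k).index = N ^ k := by
  rw [AddSubgroup.index_eq_card, card_quot h]

omit [IsDomain R] in
lemma N_pos (h : IsZpi π d N ε) : 0 < N := by
  have := h.two_le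
  omega

lemma mulLeft_inj (h : IsZpi π d N ε) (k : ℕ) :
    Function.Injective (AddMonoidHom.mulLeft (π ^ k) : R →+ R) := by
  intro x y hxy
  exact mul_left_cancel₀ (pow_ne_zero k (pi_ne_zero h)) hxy

lemma relIndex_eq (h : IsZpi π d N ε) (k : ℕ) (J : AddSubgroup R) (hJ : J.index ≠ 0)
    (hle : J.map (AddMonoidHom.mulLeft (π ^ k)) ≤ J) :
    (J.map (AddMonoidHom.mulLeft (π ^ k))).relIndex J = N ^ k := by
  have h1 := AddSubgroup.relIndex_mul_index hle
  have h2 := AddSubgroup.index_map_of_injective J (mulLeft_inj h k)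
  have h3 : ((AddMonoidHom.mulLeft (π ^ k) : R →+ R)).range.index = N ^ k := index_PP h k
  rw [h2, h3, mul_comm] at h1
  exact Nat.eq_of_mul_eq_mul_left (Nat.pos_of_ne_zero hJ) h1

lemma index_ideal_ne_zero (h : IsZpi π d N ε) (J : Ideal R) {x : R} (hx : x ∈ J) (hx0 : x ≠ 0) :
    J.toAddSubgroup.index ≠ 0 := by
  have : Finite (R ⧸ J.toAddSubgroup) := by
    refine Finite.of_surjective
      (fun r : {r // r ∈ boxF h (c2 d N * ell h x)} => ((r : R) : R ⧸ J.toAddSubgroup)) ?_
    intro q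
    obtain ⟨r, rfl⟩ := QuotientAddGroup.mk_surjective q
    obtain ⟨r', hr', hdvd⟩ := small_rep h hx0 r
    refine ⟨⟨r', (mem_boxF h _ _).2 hr'⟩, ?_⟩
    simp only
    rw [QuotientAddGroup.eq, Submodule.mem_toAddSubgroup]
    obtain ⟨z, hz⟩ := hdvd
    have : -r' + r = z * x := by rw [neg_add_eq_sub, hz]; ring
    rw [this]
    exact J.mul_mem_left z hx
  exact AddSubgroup.index_ne_zero_of_finite

/-- pigeonhole modulo `π ^ k` in a nonzero ideal -/
lemma pigeon_ideal (h : IsZpi π d N ε) (k : ℕ) (J : Ideal R) {x : R} (hx : x ∈ J) (hx0 : x ≠ 0)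
    {α : Type*} (F : Finset α) (hF : N ^ k < F.card) (c : α → R) (hc : ∀ p ∈ F, c p ∈ J) :
    ∃ p ∈ F, ∃ p' ∈ F, p ≠ p' ∧ ∃ y ∈ J, c p - c p' = π ^ k * y := by
  classical
  set K : AddSubgroup R := J.toAddSubgroup with hK
  set H : AddSubgroup R := K.map (AddMonoidHom.mulLeft (π ^ k)) with hH
  have hle : H ≤ K := by
    rintro _ ⟨y, hy, rfl⟩
    exact J.mul_mem_left _ hy
  have hrel : H.relIndex K = N ^ k := relIndex_eq h k K (index_ideal_ne_zero h J hx hx0) hle
  have hcard : Nat.card (K ⧸ H.addSubgroupOf K) = N ^ k := by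
    rw [← hrel, AddSubgroup.relIndex, AddSubgroup.index_eq_card]
  have hN := N_pos h
  have hfin : Finite (K ⧸ H.addSubgroupOf K) :=
    Nat.finite_of_card_ne_zero (by rw [hcard]; positivity)
  have : Fintype (K ⧸ H.addSubgroupOf K) := Fintype.ofFinite _
  have h1 : (univ : Finset (K ⧸ H.addSubgroupOf K)).card < F.card := by
    rw [Finset.card_univ, ← Nat.card_eq_fintype_card, hcard]
    exact hF
  obtain ⟨p, hp, p', hp', hne, heq⟩ := Finset.exists_ne_map_eq_of_card_lt_of_maps_to h1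
    (f := fun p => if hp : c p ∈ J then ((⟨c p, hp⟩ : K) : K ⧸ H.addSubgroupOf K) else 0)
    (fun p _ => Finset.mem_coe.2 (Finset.mem_univ _))
  refine ⟨p', hp', p, hp, hne.symm, ?_⟩
  simp only [hc p hp, hc p' hp', dif_pos] at heq
  rw [QuotientAddGroup.eq, AddSubgroup.mem_addSubgroupOf] at heq
  obtain ⟨y, hy, hyy⟩ := heq
  refine ⟨y, hy, ?_⟩
  have h2 : π ^ k * y = -(c p) + c p' := hyy
  rw [h2]; ring

/-- the constant for the size of values of digit sequences -/
noncomputable def c1 (d N : ℕ) : ℝ := N / (rho d N - 1)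

omit [IsDomain R] in
lemma c1_pos (h : IsZpi π d N ε) : 0 < c1 d N := by
  have h1 := one_lt_rho h
  have h2 := N_pos h
  unfold c1
  have : 0 < rho d N - 1 := by linarith
  positivity

lemma exists_indep (h : IsZpi π d N ε) (A : R) (n s j k : ℕ) (T : ℝ)
    (hmin : ∀ f g : R, π ^ n ∣ f - g * A → (f ≠ 0 ∨ g ≠ 0) →
      rho d N ^ s ≤ max (ell h f) (ell h g))
    (hjk : n + k + 1 ≤ 2 * j) (hT : 2 * (c1 d N * rho d N ^ j) ≤ T)
    (hTk : T < rho d N ^ (k + s)) :
    ∃ f1 g1 f2 g2 : R, π ^ n ∣ f1 - g1 * A ∧ π ^ n ∣ f2 - g2 * A ∧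
      ell h f1 ≤ T ∧ ell h g1 ≤ T ∧ ell h f2 ≤ T ∧ ell h g2 ≤ T ∧ f1 * g2 - f2 * g1 ≠ 0 := by
  classical
  by_contra hcon
  push Not at hcon
  have := finite_quot h n
  have : Fintype (R ⧸ PP π n) := Fintype.ofFinite _
  have hN := N_pos h
  have hN2 := h.two_le
  have hcardQ : Fintype.card (R ⧸ PP π n) = N ^ n := by
    rw [← Nat.card_eq_fintype_card, card_quot h]
  let X := (Fin j → Fin N) × (Fin j → Fin N)
  let F : X → R ⧸ PP π n := fun p => ((val π p.1 - val π p.2 * A : R) : R ⧸ PP π n)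
  have hX : Fintype.card (R ⧸ PP π n) * N ^ k < Fintype.card X := by
    rw [hcardQ, Fintype.card_prod]
    simp only [Fintype.card_pi, Fintype.card_fin, Finset.prod_const, Finset.card_univ]
    rw [← pow_add, ← pow_add]
    exact Nat.pow_lt_pow_right (by omega) (by omega)
  obtain ⟨y, hy⟩ := Fintype.exists_lt_card_fiber_of_mul_lt_card F hX
  set Fb : Finset X := univ.filter (fun p => F p = y) with hFb
  have h1k : 1 ≤ N ^ k := Nat.one_le_pow _ _ hN
  obtain ⟨p0, hp0⟩ : Fb.Nonempty := Finset.card_pos.1 (by omega)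
  obtain ⟨p1, hp1, hp1ne⟩ := Finset.exists_mem_ne (by omega : 1 < Fb.card) p0
  -- differences
  have hval : ∀ a b : Fin j → Fin N, val π a = val π b → a = b := by
    intro a b hab
    exact val_inj h a b (by rw [hab, sub_self]; exact dvd_zero _)
  have hsm : ∀ a b : Fin j → Fin N, ell h (val π a - val π b) ≤ T := by
    intro a b
    have e1 := ell_val h a
    have e2 := ell_val h b
    have e3 := ell_sub h (val π a) (val π b)
    unfold c1 at hT
    linarith
  have hlat : ∀ p ∈ Fb, ∀ p' ∈ Fb, π ^ n ∣ (val π p.1 - val π p'.1) -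
      (val π p.2 - val π p'.2) * A := by
    intro p hp p' hp'
    have e1 : F p = y := (Finset.mem_filter.1 hp).2
    have e2 : F p' = y := (Finset.mem_filter.1 hp').2
    have e3 : F p = F p' := by rw [e1, e2]
    have e4 := (mk_eq_mk n _ _).1 e3
    have e5 : (val π p.1 - val π p'.1) - (val π p.2 - val π p'.2) * A =
      (val π p.1 - val π p.2 * A) - (val π p'.1 - val π p'.2 * A) := by ring
    rw [e5]
    exact e4
  set F1 : R := val π p1.1 - val π p0.1 with hF1
  set G1 : R := val π p1.2 - val π p0.2 with hG1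
  have hne : F1 ≠ 0 ∨ G1 ≠ 0 := by
    by_contra hc
    push Not at hc
    apply hp1ne
    exact Prod.ext (hval _ _ (sub_eq_zero.1 hc.1)) (hval _ _ (sub_eq_zero.1 hc.2))
  have hcol : ∀ p ∈ Fb, F1 * (val π p.2 - val π p0.2) - (val π p.1 - val π p0.1) * G1 = 0 := by
    intro p hp
    exact hcon F1 G1 (val π p.1 - val π p0.1) (val π p.2 - val π p0.2)
      (hlat p1 hp1 p0 hp0) (hlat p hp p0 hp0) (hsm _ _) (hsm _ _) (hsm _ _) (hsm _ _)
  -- the final contradiction from a vector divisible by `π ^ k`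
  have hfinal : ∀ p ∈ Fb, ∀ p' ∈ Fb, p ≠ p' → ∀ f g : R, π ^ n ∣ f - g * A →
      val π p.1 - val π p'.1 = π ^ k * f → val π p.2 - val π p'.2 = π ^ k * g → False := by
    intro p hp p' hp' hpp f g hfg hf hg
    have hnz : f ≠ 0 ∨ g ≠ 0 := by
      by_contra hc
      push Not at hc
      rw [hc.1, mul_zero] at hf
      rw [hc.2, mul_zero] at hg
      exact hpp (Prod.ext (hval _ _ (sub_eq_zero.1 hf)) (hval _ _ (sub_eq_zero.1 hg)))
    have e1 := hmin f g hfg hnz
    have e2 : rho d N ^ k * ell h f ≤ T := by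
      rw [← ell_pi_pow_mul, ← hf]; exact hsm _ _
    have e3 : rho d N ^ k * ell h g ≤ T := by
      rw [← ell_pi_pow_mul, ← hg]; exact hsm _ _
    have e4 : rho d N ^ k * max (ell h f) (ell h g) ≤ T := by
      rcases max_choice (ell h f) (ell h g) with hm | hm <;> rw [hm] <;> assumption
    have e5 : rho d N ^ (k + s) ≤ T := by
      rw [pow_add]
      exact (mul_le_mul_of_nonneg_left e1 (pow_nonneg (rho_pos h).le _)).trans e4
    linarith
  rcases hne with hF | hG
  · -- use the first coordinate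
    let J : Ideal R :=
      { carrier := {f | ∃ g, π ^ n ∣ f - g * A ∧ F1 * g - f * G1 = 0}
        add_mem' := by
          rintro f f' ⟨g, hg1, hg2⟩ ⟨g', hg1', hg2'⟩
          refine ⟨g + g', ?_, ?_⟩
          · have := dvd_add hg1 hg1'
            have e : f + f' - (g + g') * A = f - g * A + (f' - g' * A) := by ring
            rw [e]; exact this
          · have e : F1 * (g + g') - (f + f') * G1 = (F1 * g - f * G1) + (F1 * g' - f' * G1) := by
              ring
            rw [e, hg2, hg2', add_zero]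
        zero_mem' := ⟨0, by simp, by simp⟩
        smul_mem' := by
          rintro r f ⟨g, hg1, hg2⟩
          refine ⟨r * g, ?_, ?_⟩
          · have e : r • f - r * g * A = r * (f - g * A) := by rw [smul_eq_mul]; ring
            rw [e]; exact Dvd.dvd.mul_left hg1 _
          · have e : F1 * (r * g) - r • f * G1 = r * (F1 * g - f * G1) := by
              rw [smul_eq_mul]; ring
            rw [e, hg2, mul_zero] }
    have hmemJ : ∀ p ∈ Fb, val π p.1 - val π p0.1 ∈ J := fun p hp =>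
      ⟨val π p.2 - val π p0.2, hlat p hp p0 hp0, hcol p hp⟩
    obtain ⟨p, hp, p', hp', hpp, f, ⟨g, hg1, hg2⟩, hff⟩ := pigeon_ideal h k J (hmemJ p1 hp1) hF
      Fb hy (fun p => val π p.1 - val π p0.1) hmemJ
    have hff' : val π p.1 - val π p'.1 = π ^ k * f := by rw [← hff]; ring
    refine hfinal p hp p' hp' hpp f g hg1 hff' ?_
    -- injectivity of the coordinate
    have e1 := hcol p hp
    have e2 := hcol p' hp'
    have e3 : F1 * ((val π p.2 - val π p'.2) - π ^ k * g) = 0 := by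
      have : F1 * ((val π p.2 - val π p'.2) - π ^ k * g) =
        (F1 * (val π p.2 - val π p0.2) - (val π p.1 - val π p0.1) * G1) -
        (F1 * (val π p'.2 - val π p0.2) - (val π p'.1 - val π p0.1) * G1) +
        ((val π p.1 - val π p'.1) - π ^ k * f) * G1 - π ^ k * (F1 * g - f * G1) := by ring
      rw [this, e1, e2, hff', hg2]; ring
    exact sub_eq_zero.1 ((mul_eq_zero.1 e3).resolve_left hF)
  · -- use the second coordinate
    let J : Ideal R :=
      { carrier := {g | ∃ f, π ^ n ∣ f - g * A ∧ F1 * g - f * G1 = 0}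
        add_mem' := by
          rintro g g' ⟨f, hg1, hg2⟩ ⟨f', hg1', hg2'⟩
          refine ⟨f + f', ?_, ?_⟩
          · have := dvd_add hg1 hg1'
            have e : f + f' - (g + g') * A = f - g * A + (f' - g' * A) := by ring
            rw [e]; exact this
          · have e : F1 * (g + g') - (f + f') * G1 = (F1 * g - f * G1) + (F1 * g' - f' * G1) := by
              ring
            rw [e, hg2, hg2', add_zero]
        zero_mem' := ⟨0, by simp, by simp⟩
        smul_mem' := by
          rintro r g ⟨f, hg1, hg2⟩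
          refine ⟨r * f, ?_, ?_⟩
          · have e : r * f - r • g * A = r * (f - g * A) := by rw [smul_eq_mul]; ring
            rw [e]; exact Dvd.dvd.mul_left hg1 _
          · have e : F1 * (r • g) - r * f * G1 = r * (F1 * g - f * G1) := by
              rw [smul_eq_mul]; ring
            rw [e, hg2, mul_zero] }
    have hmemJ : ∀ p ∈ Fb, val π p.2 - val π p0.2 ∈ J := fun p hp =>
      ⟨val π p.1 - val π p0.1, hlat p hp p0 hp0, hcol p hp⟩
    obtain ⟨p, hp, p', hp', hpp, g, ⟨f, hg1, hg2⟩, hgg⟩ := pigeon_ideal h k J (hmemJ p1 hp1) hG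
      Fb hy (fun p => val π p.2 - val π p0.2) hmemJ
    have hgg' : val π p.2 - val π p'.2 = π ^ k * g := by rw [← hgg]; ring
    refine hfinal p hp p' hp' hpp f g hg1 ?_ hgg'
    have e1 := hcol p hp
    have e2 := hcol p' hp'
    have e3 : G1 * ((val π p.1 - val π p'.1) - π ^ k * f) = 0 := by
      have : G1 * ((val π p.1 - val π p'.1) - π ^ k * f) =
        (F1 * (val π p'.2 - val π p0.2) - (val π p'.1 - val π p0.1) * G1) -
        (F1 * (val π p.2 - val π p0.2) - (val π p.1 - val π p0.1) * G1) +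
        F1 * ((val π p.2 - val π p'.2) - π ^ k * g) + π ^ k * (F1 * g - f * G1) := by ring
      rw [this, e1, e2, hgg', hg2]; ring
    exact sub_eq_zero.1 ((mul_eq_zero.1 e3).resolve_left hG)

/-- from two independent vectors to a vector with `g ≡ 1` modulo `N` -/
lemma exists_unit_vec (h : IsZpi π d N ε) (A : R) (n : ℕ) (T : ℝ) {f1 g1 f2 g2 : R}
    (h1 : π ^ n ∣ f1 - g1 * A) (h2 : π ^ n ∣ f2 - g2 * A)
    (hf1 : ell h f1 ≤ T) (hg1 : ell h g1 ≤ T) (hf2 : ell h f2 ≤ T) (hg2 : ell h g2 ≤ T)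
    (hdet : f1 * g2 - f2 * g1 ≠ 0) :
    ∃ f g : R, π ^ n ∣ f - g * A ∧ π ∣ g - 1 ∧ ell h f ≤ 2 * (N * c2 d N) * T ∧
      ell h g ≤ 2 * (N * c2 d N) * T := by
  obtain ⟨y, m, hm, hy⟩ := exists_mul_eq_int h hdet
  have hN := N_pos h
  have hmN : m * (N : ℤ) ≠ 0 := mul_ne_zero hm (by exact_mod_cast hN.ne')
  -- Cramer: `D (A, 1) = (A g2 - f2) (f1, g1) + (f1 - A g1) (f2, g2)`
  obtain ⟨q1, s1, hq1, hs1⟩ := rounding h hmN (y * (A * g2 - f2))
  obtain ⟨q2, s2, hq2, hs2⟩ := rounding h hmN (y * (f1 - A * g1))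
  have hT : 0 ≤ T := (ell_nonneg h f1).trans hf1
  have hm' : 0 < |(m : ℝ)| := abs_pos.2 (by exact_mod_cast hm)
  have hbound : ∀ u v w : R, (m : R) * w = s1 * u + s2 * v → ell h u ≤ T → ell h v ≤ T →
      ell h w ≤ 2 * (N * c2 d N) * T := by
    intro u v w hw hu hv
    have e1 := ell_intCast_mul h m w
    rw [hw] at e1
    have e2 := ell_add h (s1 * u) (s2 * v)
    have e3 := ell_mul h s1 u
    have e4 := ell_mul h s2 v
    have hc : |((m * (N : ℤ) : ℤ) : ℝ)| * c2 d N = |(m : ℝ)| * (N * c2 d N) := by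
      push_cast
      rw [abs_mul, Nat.abs_cast]; ring
    rw [hc] at hs1 hs2
    have hcn := c2_nonneg h
    have e5 : ell h s1 * ell h u ≤ |(m : ℝ)| * (N * c2 d N) * T :=
      mul_le_mul hs1 hu (ell_nonneg h u) (by positivity)
    have e6 : ell h s2 * ell h v ≤ |(m : ℝ)| * (N * c2 d N) * T :=
      mul_le_mul hs2 hv (ell_nonneg h v) (by positivity)
    have e7 : |(m : ℝ)| * ell h w ≤ |(m : ℝ)| * (2 * (N * c2 d N) * T) := by
      rw [← e1]; linarith
    exact le_of_mul_le_mul_left e7 hm'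
  push_cast at hq1 hq2
  refine ⟨A - (N : R) * q1 * f1 - (N : R) * q2 * f2, 1 - (N : R) * q1 * g1 - (N : R) * q2 * g2,
    ?_, ?_, ?_, ?_⟩
  · have e : A - (N : R) * q1 * f1 - (N : R) * q2 * f2 -
        (1 - (N : R) * q1 * g1 - (N : R) * q2 * g2) * A =
        -((N : R) * q1 * (f1 - g1 * A)) - (N : R) * q2 * (f2 - g2 * A) := by ring
    rw [e]
    exact dvd_sub ((dvd_neg).2 (Dvd.dvd.mul_left h1 _)) (Dvd.dvd.mul_left h2 _)
  · have e : 1 - (N : R) * q1 * g1 - (N : R) * q2 * g2 - 1 =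
        (N : R) * (-(q1 * g1) - q2 * g2) := by ring
    rw [e]
    exact Dvd.dvd.mul_right (pi_dvd_N h) _
  · refine hbound f1 f2 _ ?_ hf1 hf2
    have e1 : (m : R) * A = y * (A * g2 - f2) * f1 + y * (f1 - A * g1) * f2 := by
      rw [← hy]; ring
    have e2 : (m : R) * (A - (N : R) * q1 * f1 - (N : R) * q2 * f2) =
        (m : R) * A - (m : R) * (N : R) * q1 * f1 - (m : R) * (N : R) * q2 * f2 := by ring
    rw [e2, e1, hq1, hq2]; ring
  · refine hbound g1 g2 _ ?_ hg1 hg2
    have e1 : (m : R) = y * (A * g2 - f2) * g1 + y * (f1 - A * g1) * g2 := by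
      rw [← hy]; ring
    have e2 : (m : R) * (1 - (N : R) * q1 * g1 - (N : R) * q2 * g2) =
        (m : R) - (m : R) * (N : R) * q1 * g1 - (m : R) * (N : R) * q2 * g2 := by ring
    rw [e2]
    conv_lhs => enter [1, 1]; rw [e1]
    rw [hq1, hq2]; ring

end Pool.Agent.V7H67.PA
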