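import Pool.Agent.V7H67.PA.Defs
import Pool.Agent.V7H67.PA.Second

/-!
# The average finite `π`-adic complexity is `n / 2 + O(1)`
-/

set_option autoImplicit false

namespace Pool.Agent.V7H67.PA

open Finset

universe u

section expansions

variable {R : Type u} [CommRing R] {π : R} {d N : ℕ} {ε : ℤ}

lemma digit_step (h : IsZpi π d N ε) {g : R} (hg : UnitMod π g) (m : R) :
    ∃ (s : Fin N) (m' : R), m = g * ((s : ℕ) : R) + π * m' := by
  obtain ⟨g', z, hz⟩ := hg
  obtain ⟨s, w, hw⟩ := exists_digit h (m * g')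
  refine ⟨s, g * w - m * z, ?_⟩
  have h1 : g * ((s : ℕ) : R) = g * (m * g') - g * (π * w) := by rw [← hw]; ring
  have h2 : g * (m * g') = m + m * (π * z) := by rw [← hz]; ring
  rw [h1, h2]; ring

/-- every quotient `f / g` with `g` invertible modulo `π` has a `π`-adic expansion -/
lemma exists_expansion (h : IsZpi π d N ε) {g : R} (hg : UnitMod π g) (f : R) :
    ∃ b : ℕ → Fin N, Represents π b f g := by
  choose s m' hm using digit_step h hg
  let st : ℕ → R := fun i => Nat.rec f (fun _ m => m' m) i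
  refine ⟨fun i => s (st i), fun n => ?_⟩
  have : f - g * ∑ i ∈ range n, ((s (st i) : ℕ) : R) * π ^ i = π ^ n * st n := by
    induction n with
    | zero => simp [st]
    | succ n ih =>
      rw [Finset.sum_range_succ, mul_add, ← sub_sub, ih]
      have h1 : st n = g * ((s (st n) : ℕ) : R) + π * st (n + 1) := hm (st n)
      conv_lhs => enter [1]; rw [h1]
      rw [pow_succ]; ring
  rw [this]
  exact Dvd.intro _ rfl

variable [IsDomain R]

lemma cancel_unit (h : IsZpi π d N ε) {g : R} (hg : UnitMod π g) :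
    ∀ (n : ℕ) (x : R), π ^ n ∣ g * x → π ^ n ∣ x := by
  intro n
  induction n with
  | zero => intro x _; simp
  | succ n ih =>
    intro x hx
    obtain ⟨y, hy⟩ := ih x ((pow_dvd_pow π (Nat.le_succ n)).trans hx)
    have h1 : π ^ n * π ∣ π ^ n * (g * y) := by
      rw [← pow_succ]
      have : π ^ n * (g * y) = g * x := by rw [hy]; ring
      rw [this]; exact hx
    have h2 : π ∣ g * y :=
      (mul_dvd_mul_iff_left (pow_ne_zero n (pi_ne_zero h))).1 h1
    obtain ⟨g', hg'⟩ := hg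
    have h3 : π ∣ y := by
      have e : y = (g * y) * g' - y * (g * g' - 1) := by ring
      rw [e]
      exact dvd_sub (Dvd.dvd.mul_right h2 _) (Dvd.dvd.mul_left hg' _)
    rw [hy, pow_succ]
    exact mul_dvd_mul_left _ h3

lemma extends_of_dvd (h : IsZpi π d N ε) {g f : R} (hg : UnitMod π g) {b : ℕ → Fin N}
    (hb : Represents π b f g) {n : ℕ} {a : Fin n → Fin N} (ha : π ^ n ∣ f - g * val π a) :
    ∀ i : Fin n, b i = a i := by
  have h1 := hb n
  have h2 : ∑ i ∈ range n, ((b i : ℕ) : R) * π ^ i = val π (fun i : Fin n => b i) :=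
    valN_eq_val π b n
  rw [h2] at h1
  have h3 : π ^ n ∣ g * (val π (fun i : Fin n => b i) - val π a) := by
    have e : g * (val π (fun i : Fin n => b i) - val π a) =
        (f - g * val π a) - (f - g * val π (fun i : Fin n => b i)) := by ring
    rw [e]; exact dvd_sub ha h1
  have h4 := val_inj h _ _ (cancel_unit h hg n _ h3)
  intro i
  exact congrFun h4 i

/-- membership in `finSizes` -/
lemma mem_finSizes (h : IsZpi π d N ε) (φ : R → ℝ) {n : ℕ} (a : Fin n → Fin N) (t : ℝ) :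
    t ∈ finSizes π φ a ↔ ∃ f g : R, UnitMod π g ∧ π ^ n ∣ f - g * val π a ∧
      t = max (φ f) (φ g) := by
  constructor
  · rintro ⟨b, hba, f, g, hg, hb, rfl⟩
    refine ⟨f, g, hg, ?_, rfl⟩
    have h1 := hb n
    have h2 : ∑ i ∈ range n, ((b i : ℕ) : R) * π ^ i = val π (fun i : Fin n => b i) :=
      valN_eq_val π b n
    rw [h2] at h1
    have h3 : (fun i : Fin n => b i) = a := funext hba
    rwa [h3] at h1
  · rintro ⟨f, g, hg, hdvd, rfl⟩
    obtain ⟨b, hb⟩ := exists_expansion h hg f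
    exact ⟨b, extends_of_dvd h hg hb hdvd, f, g, hg, hb, rfl⟩

omit [IsDomain R] in
lemma unitMod_ne_zero (h : IsZpi π d N ε) {g : R} (hg : UnitMod π g) : g ≠ 0 := by
  rintro rfl
  obtain ⟨g', hg'⟩ := hg
  rw [zero_mul, zero_sub, dvd_neg] at hg'
  have h1 : π ∣ ((1 : ℤ) : R) := by simpa using hg'
  have h2 := N_dvd_of_pi_dvd h h1
  have h3 := h.two_le
  have h4 := Int.le_of_dvd one_pos h2
  omega

end expansions

/-- integral of a tail -/
lemma sum_tail {ι : Type*} [Fintype ι] (X : ι → ℝ) (M : ℕ) (hM : ∀ a, X a ≤ M) (B : ℕ → ℝ)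
    (hB : ∀ t : ℕ, t < M → (Nat.card {a // (t : ℝ) < X a} : ℝ) ≤ B t) :
    ∑ a, X a ≤ ∑ t ∈ range M, B t := by
  classical
  have h1 : ∀ a, X a ≤ ∑ t ∈ range M, (if (t : ℝ) < X a then (1 : ℝ) else 0) := by
    intro a
    rw [Finset.sum_ite, Finset.sum_const_zero, add_zero, Finset.sum_const, nsmul_eq_mul, mul_one]
    have h2 : range ⌈X a⌉₊ ⊆ (range M).filter (fun t : ℕ => (t : ℝ) < X a) := by
      intro t ht
      rw [Finset.mem_range] at ht
      rw [Finset.mem_filter, Finset.mem_range]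
      have h3 := Nat.lt_ceil.1 ht
      refine ⟨?_, h3⟩
      have := h3.trans_le (hM a)
      exact_mod_cast this
    have h4 := Finset.card_le_card h2
    rw [Finset.card_range] at h4
    exact (Nat.le_ceil (X a)).trans (by exact_mod_cast h4)
  refine (Finset.sum_le_sum fun a _ => h1 a).trans ?_
  rw [Finset.sum_comm]
  refine Finset.sum_le_sum fun t ht => ?_
  refine le_trans (le_of_eq ?_) (hB t (Finset.mem_range.1 ht))
  rw [Finset.sum_ite, Finset.sum_const_zero, add_zero, Finset.sum_const, nsmul_eq_mul, mul_one,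
    Nat.card_eq_fintype_card, Fintype.card_subtype]

lemma geom_bound {K x : ℝ} (hK : 0 ≤ K) (hx : 2 ≤ x) (M n : ℕ) :
    ∑ t ∈ range M, K * (x ^ n / x ^ (2 * t)) ≤ 2 * K * x ^ n := by
  have hx0 : 0 < x := by linarith
  have h1 : ∀ t ∈ range M, K * (x ^ n / x ^ (2 * t)) ≤ K * x ^ n * (1 / 2) ^ t := by
    intro t _
    rw [mul_assoc]
    refine mul_le_mul_of_nonneg_left ?_ hK
    rw [div_eq_mul_inv]
    refine mul_le_mul_of_nonneg_left ?_ (by positivity)
    rw [← inv_pow, pow_mul, one_div]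
    refine pow_le_pow_left₀ (by positivity) ?_ t
    rw [inv_pow]
    refine inv_anti₀ (by norm_num) ?_
    nlinarith
  refine (Finset.sum_le_sum h1).trans ?_
  rw [← Finset.mul_sum]
  have := sum_geometric_two_le M
  have hKx : 0 ≤ K * x ^ n := by positivity
  nlinarith

section main

variable {R : Type u} [CommRing R] {π : R} {d N : ℕ} {ε : ℤ} [IsDomain R]

omit [IsDomain R] in
lemma logb_rho (h : IsZpi π d N ε) (s : ℕ) :
    (d : ℝ) * Real.logb N (rho d N ^ s) = s := by
  have hN : (1 : ℝ) < N := by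
    have := h.two_le
    exact_mod_cast (by omega : 1 < N)
  have hd : (d : ℝ) ≠ 0 := by
    have := h.one_le
    positivity
  rw [Real.logb_pow, rho, Real.logb_rpow (by linarith) hN.ne']
  field_simp

/-- bound for the complexity if there is no small vector -/
lemma upper_of_no_small (h : IsZpi π d N ε) (φ : R → ℝ)
    (hφ1 : ∀ x, x ≠ 0 → φ x ≤ d * Real.logb N (ell h x)) (hφz : φ 0 = 0) {c0 : ℕ}
    (hc0 : 2 * c1 d N < rho d N ^ c0) {n s : ℕ} (hs : 2 * s ≤ n) (A : R)
    (hmin : ∀ f g : R, π ^ n ∣ f - g * A → (f ≠ 0 ∨ g ≠ 0) →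
      rho d N ^ s ≤ max (ell h f) (ell h g)) :
    ∃ f g : R, UnitMod π g ∧ π ^ n ∣ f - g * A ∧
      max (φ f) (φ g) ≤ (n : ℝ) - s +
        d * Real.logb N (4 * (N * c2 d N) * c1 d N * rho d N ^ (c0 + 1)) := by
  have hr := rho_pos h
  have hc1 := c1_pos h
  have hc2 := one_le_c2 h
  have hN : (1 : ℝ) < N := by
    have := h.two_le
    exact_mod_cast (by omega : 1 < N)
  set j : ℕ := n - s + c0 + 1 with hj
  set k : ℕ := n - 2 * s + 2 * c0 + 1 with hk
  set T : ℝ := 2 * (c1 d N * rho d N ^ j) with hT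
  have hks : k + s = j + c0 := by omega
  obtain ⟨f1, g1, f2, g2, h1, h2, hf1, hg1, hf2, hg2, hdet⟩ :=
    exists_indep h A n s j k T hmin (by omega) le_rfl (by
      rw [hks, pow_add, hT]
      have : 0 < rho d N ^ j := pow_pos hr j
      nlinarith)
  obtain ⟨f, g, hfg, hg, hlf, hlg⟩ := exists_unit_vec h A n T h1 h2 hf1 hg1 hf2 hg2 hdet
  have hgu : UnitMod π g := ⟨1, by simpa using hg⟩
  refine ⟨f, g, hgu, hfg, ?_⟩
  set C : ℝ := 4 * (N * c2 d N) * c1 d N * rho d N ^ (c0 + 1) with hC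
  have hCpos : 0 < C := by positivity
  have hbd : 2 * (N * c2 d N) * T = C * rho d N ^ (n - s) := by
    rw [hT, hC, hj]
    have : n - s + c0 + 1 = (n - s) + (c0 + 1) := by ring
    rw [this, pow_add]; ring
  rw [hbd] at hlf hlg
  have hval : (d : ℝ) * Real.logb N (C * rho d N ^ (n - s)) =
      (n : ℝ) - s + d * Real.logb N C := by
    rw [Real.logb_mul hCpos.ne' (pow_pos hr _).ne', mul_add, logb_rho h,
      Nat.cast_sub (by omega : s ≤ n)]
    ring
  have hstep : ∀ x : R, x ≠ 0 → ell h x ≤ C * rho d N ^ (n - s) →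
      φ x ≤ (n : ℝ) - s + d * Real.logb N C := by
    intro x hx hlx
    rw [← hval]
    refine (hφ1 x hx).trans (mul_le_mul_of_nonneg_left ?_ (Nat.cast_nonneg d))
    exact Real.logb_le_logb_of_le hN (lt_of_lt_of_le one_pos (one_le_ell h hx)) hlx
  have hg0 := unitMod_ne_zero h hgu
  refine max_le ?_ (hstep g hg0 hlg)
  by_cases hf0 : f = 0
  · rw [hf0, hφz, ← hval]
    refine mul_nonneg (Nat.cast_nonneg d) (Real.logb_nonneg hN ?_)
    exact (one_le_ell h hg0).trans hlg
  · exact hstep f hf0 hlf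

/-- **Main theorem**, for a size function comparable with the logarithm of the norm. -/
theorem avg_main (h : IsZpi π d N ε) (φ : R → ℝ) (C0 : ℝ) (hC0 : 0 ≤ C0)
    (hφ1 : ∀ x, x ≠ 0 → φ x ≤ d * Real.logb N (ell h x))
    (hφ2 : ∀ x, x ≠ 0 → d * Real.logb N (ell h x) ≤ φ x + C0) (hφz : φ 0 = 0) :
    ∃ C : ℝ, ∀ n : ℕ, |avgFin π φ N n - (n : ℝ) / 2| ≤ C := by
  classical
  have hr := rho_pos h
  have hr1 := one_lt_rho h
  have hc1 := c1_pos h
  have hc2 := one_le_c2 h
  have hKK := KK_pos h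
  have hN2 : (2 : ℝ) ≤ N := by exact_mod_cast h.two_le
  have hN : (1 : ℝ) < N := by linarith
  have hd0 : (d : ℝ) ≠ 0 := by
    have := h.one_le
    positivity
  obtain ⟨c0, hc0⟩ := pow_unbounded_of_one_lt (2 * c1 d N) hr1
  set C3 : ℝ := d * Real.logb N (4 * (N * c2 d N) * c1 d N * rho d N ^ (c0 + 1)) with hC3
  -- nonemptiness and boundedness of the sets of sizes
  have hne : ∀ {n : ℕ} (a : Fin n → Fin N), (finSizes π φ a).Nonempty := by
    intro n a
    refine ⟨_, (mem_finSizes h φ a _).2 ⟨val π a, 1, ⟨1, by simp⟩, by simp, rfl⟩⟩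
  have hlow : ∀ {n : ℕ} (a : Fin n → Fin N), ∀ t ∈ finSizes π φ a, -C0 ≤ t := by
    intro n a t ht
    obtain ⟨f, g, hg, _, rfl⟩ := (mem_finSizes h φ a t).1 ht
    have hg0 := unitMod_ne_zero h hg
    have h1 := hφ2 g hg0
    have h2 : 0 ≤ (d : ℝ) * Real.logb N (ell h g) :=
      mul_nonneg (Nat.cast_nonneg d) (Real.logb_nonneg hN (one_le_ell h hg0))
    have h3 : φ g ≤ max (φ f) (φ g) := le_max_right _ _
    linarith
  have hbdd : ∀ {n : ℕ} (a : Fin n → Fin N), BddBelow (finSizes π φ a) :=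
    fun a => ⟨-C0, fun t ht => hlow a t ht⟩
  have hlam_low : ∀ {n : ℕ} (a : Fin n → Fin N), -C0 ≤ finComplexity π φ a :=
    fun a => le_csInf (hne a) (hlow a)
  -- upper tail
  have hbad : ∀ {n s : ℕ}, 2 * s ≤ n → ∀ a : Fin n → Fin N,
      (n : ℝ) - s + C3 < finComplexity π φ a →
      ∃ f g : R, g ≠ 0 ∧ ell h f < rho d N ^ s ∧ ell h g < rho d N ^ s ∧
        π ^ n ∣ f - g * val π a := by
    intro n s hs a ha
    by_contra hcon
    push Not at hcon
    have hmin : ∀ f g : R, π ^ n ∣ f - g * val π a → (f ≠ 0 ∨ g ≠ 0) →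
        rho d N ^ s ≤ max (ell h f) (ell h g) := by
      intro f g hfg hnz
      by_contra hlt
      rw [not_le, max_lt_iff] at hlt
      by_cases hg0 : g = 0
      · subst hg0
        have hf0 : f ≠ 0 := hnz.resolve_right (fun hx => hx rfl)
        rw [zero_mul, sub_zero] at hfg
        obtain ⟨w, rfl⟩ := hfg
        have hw0 : w ≠ 0 := right_ne_zero_of_mul hf0
        have h1 := hlt.1
        rw [ell_pi_pow_mul] at h1
        have h2 : rho d N ^ s ≤ rho d N ^ n := pow_le_pow_right₀ hr1.le (by omega)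
        have h3 := one_le_ell h hw0
        have h4 : 0 < rho d N ^ n := pow_pos hr n
        nlinarith
      · exact hcon f g hg0 hlt.1 hlt.2 hfg
    obtain ⟨f, g, hg, hfg, hle⟩ := upper_of_no_small h φ hφ1 hφz hc0 hs (val π a) hmin
    have h1 : finComplexity π φ a ≤ max (φ f) (φ g) :=
      csInf_le (hbdd a) ((mem_finSizes h φ a _).2 ⟨f, g, hg, hfg, rfl⟩)
    linarith
  -- the two bounds
  refine ⟨1 + |C3| + C0 + 2 * KK d N, fun n => ?_⟩
  have hNn : (0 : ℝ) < (N : ℝ) ^ n := by positivity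
  have hcardF : ((Finset.univ : Finset (Fin n → Fin N)).card : ℝ) = (N : ℝ) ^ n := by
    simp
  have hupper : ∑ a : Fin n → Fin N, (finComplexity π φ a - ((n : ℝ) - (n / 2 : ℕ) + C3)) ≤
      2 * KK d N * (N : ℝ) ^ n := by
    have hX : ∀ a : Fin n → Fin N,
        finComplexity π φ a - ((n : ℝ) - (n / 2 : ℕ) + C3) ≤ ((n / 2 + 1 : ℕ) : ℝ) := by
      intro a
      by_contra hlt
      rw [not_le] at hlt
      obtain ⟨f, g, hg0, _, hg, _⟩ := hbad (n := n) (s := 0) (by omega) a (by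
        push_cast at hlt
        push_cast
        linarith)
      rw [pow_zero] at hg
      have := one_le_ell h hg0
      linarith
    refine (sum_tail _ (n / 2 + 1) hX (fun t => KK d N * ((N : ℝ) ^ n / (N : ℝ) ^ (2 * t)))
      ?_).trans (geom_bound hKK.le hN2 _ _)
    intro t ht
    have hY : (1 : ℝ) ≤ rho d N ^ (n / 2 - t) := one_le_rho_pow h _
    have h1 : (Nat.card {a : Fin n → Fin N // (t : ℝ) <
        finComplexity π φ a - ((n : ℝ) - (n / 2 : ℕ) + C3)} : ℝ) ≤
        (Nat.card {a : Fin n → Fin N // ∃ f g : R, g ≠ 0 ∧ ell h f ≤ rho d N ^ (n / 2 - t) ∧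
          ell h g ≤ rho d N ^ (n / 2 - t) ∧ π ^ n ∣ f - g * val π a} : ℝ) := by
      have : Nat.card {a : Fin n → Fin N // (t : ℝ) <
        finComplexity π φ a - ((n : ℝ) - (n / 2 : ℕ) + C3)} ≤
        Nat.card {a : Fin n → Fin N // ∃ f g : R, g ≠ 0 ∧ ell h f ≤ rho d N ^ (n / 2 - t) ∧
          ell h g ≤ rho d N ^ (n / 2 - t) ∧ π ^ n ∣ f - g * val π a} := by
        refine Nat.card_le_card_of_injective (fun a => ⟨a.1, ?_⟩) ?_
        · obtain ⟨a, ha⟩ := a
          have hts : t ≤ n / 2 := by omega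
          obtain ⟨f, g, hg0, hf, hg, hfg⟩ := hbad (n := n) (s := n / 2 - t) (by omega) a (by
            rw [Nat.cast_sub hts]
            linarith)
          exact ⟨f, g, hg0, hf.le, hg.le, hfg⟩
        · intro a b hab
          simp only [Subtype.mk.injEq] at hab
          exact Subtype.ext hab
      exact_mod_cast this
    refine (h1.trans (count_small h hY n)).trans ?_
    refine mul_le_mul_of_nonneg_left ?_ hKK.le
    rw [← pow_mul, mul_comm _ d, pow_mul, rho_pow h, ← pow_add, le_div_iff₀ (by positivity),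
      ← pow_add]
    exact pow_le_pow_right₀ hN.le (by omega)
  have hlower : ∑ a : Fin n → Fin N, ((n : ℝ) / 2 - C0 - finComplexity π φ a) ≤
      2 * KK d N * (N : ℝ) ^ n := by
    have hX : ∀ a : Fin n → Fin N,
        (n : ℝ) / 2 - C0 - finComplexity π φ a ≤ (n : ℝ) := by
      intro a
      have := hlam_low a
      have : (0 : ℝ) ≤ n := Nat.cast_nonneg n
      linarith
    refine (sum_tail _ n hX (fun t => KK d N * ((N : ℝ) ^ n / (N : ℝ) ^ (2 * t)))
      ?_).trans (geom_bound hKK.le hN2 _ _)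
    intro t ht
    -- the size of the vectors
    set Y : ℝ := (N : ℝ) ^ (((n : ℝ) / 2 - t) / d) with hYdef
    have hYpos : 0 < Y := Real.rpow_pos_of_pos (by linarith) _
    have hYpow : Y ^ d * Y ^ d = (N : ℝ) ^ n / (N : ℝ) ^ (2 * t) := by
      have h1 : Y ^ d = (N : ℝ) ^ ((n : ℝ) / 2 - t) := by
        rw [hYdef, ← Real.rpow_natCast, ← Real.rpow_mul (by linarith)]
        congr 1
        field_simp
      rw [h1, ← Real.rpow_add (by linarith), eq_div_iff (by positivity), ← Real.rpow_natCast,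
        ← Real.rpow_natCast, ← Real.rpow_add (by linarith)]
      congr 1
      push_cast
      ring
    have himp : ∀ a : Fin n → Fin N, (t : ℝ) < (n : ℝ) / 2 - C0 - finComplexity π φ a →
        ∃ f g : R, g ≠ 0 ∧ ell h f ≤ Y ∧ ell h g ≤ Y ∧ π ^ n ∣ f - g * val π a := by
      intro a ha
      have h1 : finComplexity π φ a < (n : ℝ) / 2 - t - C0 := by linarith
      obtain ⟨z, hz, hzlt⟩ := exists_lt_of_csInf_lt (hne a) h1
      obtain ⟨f, g, hg, hfg, rfl⟩ := (mem_finSizes h φ a z).1 hz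
      have hstep : ∀ x : R, x ≠ 0 → φ x ≤ max (φ f) (φ g) → ell h x ≤ Y := by
        intro x hx hle
        have h2 := hφ2 x hx
        have h3 : (d : ℝ) * Real.logb N (ell h x) < (n : ℝ) / 2 - t := by linarith
        have hdpos : (0 : ℝ) < d := lt_of_le_of_ne (Nat.cast_nonneg d) hd0.symm
        have h4 : Real.logb N (ell h x) < ((n : ℝ) / 2 - t) / d := by
          rw [lt_div_iff₀ hdpos, mul_comm]; exact h3
        rw [Real.logb_lt_iff_lt_rpow hN (lt_of_lt_of_le one_pos (one_le_ell h hx))] at h4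
        exact h4.le
      have hg0 := unitMod_ne_zero h hg
      refine ⟨f, g, hg0, ?_, hstep g hg0 (le_max_right _ _), hfg⟩
      by_cases hf0 : f = 0
      · rw [hf0, ell_zero]; exact hYpos.le
      · exact hstep f hf0 (le_max_left _ _)
    have h1 : (Nat.card {a : Fin n → Fin N // (t : ℝ) <
        (n : ℝ) / 2 - C0 - finComplexity π φ a} : ℝ) ≤
        (Nat.card {a : Fin n → Fin N // ∃ f g : R, g ≠ 0 ∧ ell h f ≤ Y ∧
          ell h g ≤ Y ∧ π ^ n ∣ f - g * val π a} : ℝ) := by
      have : Nat.card {a : Fin n → Fin N // (t : ℝ) <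
        (n : ℝ) / 2 - C0 - finComplexity π φ a} ≤
        Nat.card {a : Fin n → Fin N // ∃ f g : R, g ≠ 0 ∧ ell h f ≤ Y ∧
          ell h g ≤ Y ∧ π ^ n ∣ f - g * val π a} := by
        refine Nat.card_le_card_of_injective (fun a => ⟨a.1, himp a.1 a.2⟩) ?_
        intro a b hab
        simp only [Subtype.mk.injEq] at hab
        exact Subtype.ext hab
      exact_mod_cast this
    refine h1.trans ?_
    by_cases hY : 1 ≤ Y
    · have := count_small h hY n
      rw [hYpow] at this
      exact this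
    · have hempty : IsEmpty {a : Fin n → Fin N // ∃ f g : R, g ≠ 0 ∧ ell h f ≤ Y ∧
          ell h g ≤ Y ∧ π ^ n ∣ f - g * val π a} := by
        refine ⟨fun a => ?_⟩
        obtain ⟨a, f, g, hg0, _, hg, _⟩ := a
        exact hY ((one_le_ell h hg0).trans hg)
      rw [Nat.card_of_isEmpty]
      simp only [Nat.cast_zero]
      positivity
  rw [Finset.sum_sub_distrib, Finset.sum_const, nsmul_eq_mul, hcardF] at hupper hlower
  have hfl : ((n / 2 : ℕ) : ℝ) ≤ (n : ℝ) / 2 := by
    have : 2 * (n / 2) ≤ n := by omega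
    have : (2 : ℝ) * ((n / 2 : ℕ) : ℝ) ≤ n := by exact_mod_cast this
    linarith
  have hfl2 : (n : ℝ) / 2 - 1 ≤ ((n / 2 : ℕ) : ℝ) := by
    have : n ≤ 2 * (n / 2) + 1 := by omega
    have : (n : ℝ) ≤ 2 * ((n / 2 : ℕ) : ℝ) + 1 := by exact_mod_cast this
    linarith
  have hC3a := le_abs_self C3
  have hC3b := neg_abs_le C3
  have hC3n := abs_nonneg C3
  unfold avgFin
  rw [abs_le]
  constructor
  · have : (n : ℝ) / 2 - C0 - 2 * KK d N ≤ (∑ a : Fin n → Fin N, finComplexity π φ a) /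
        (N : ℝ) ^ n := by
      rw [le_div_iff₀ hNn]
      nlinarith
    linarith
  · have : (∑ a : Fin n → Fin N, finComplexity π φ a) / (N : ℝ) ^ n ≤
        (n : ℝ) - (n / 2 : ℕ) + C3 + 2 * KK d N := by
      rw [div_le_iff₀ hNn]
      nlinarith
    linarith

end main

end Pool.Agent.V7H67.PA
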